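import Pool.Agent.LibKB.Defs

/-!
THEOREM K+, part B: the inductive object `PSurf` (smooth projective surfaces with function field `L`,
given by prime divisors and closed points), closed under blow-ups of closed points.

Closed points are given by their local rings `x ⊆ L`; `RLR x a b` says that `x` is a regular local
ring of dimension two, essentially of finite type over `ℂ`, with residue field `ℂ`, field of fractions
`L` and regular parameters `a, b`.
-/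

set_option autoImplicit false

open Pool.Agent.LibGMM Pool.Agent.LibK Pool.Agent.LibKB

namespace Pool.Agent.LibLB

section

variable {L : Type} [Field L] [Algebra ℂ L]

/-- `x` is a regular local ring of dimension two with parameters `a, b`, residue field `ℂ` and field
of fractions `L`, essentially of finite type over `ℂ`. -/
structure RLR (x : Subalgebra ℂ L) (a b : L) : Prop where
  memA : a ∈ x
  memB : b ∈ x
  frac : ∀ z : L, ∃ u ∈ x, ∃ v ∈ x, v ≠ 0 ∧ z = u / v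
  decomp : ∀ u ∈ x, ∃ c : ℂ, ∃ p ∈ x, ∃ q ∈ x, u = algebraMap ℂ L c + a * p + b * q
  unit : ∀ u ∈ x, u⁻¹ ∈ x ∨ ∃ p ∈ x, ∃ q ∈ x, u = a * p + b * q
  nonunit : ∀ p ∈ x, ∀ q ∈ x, a * p + b * q ≠ 1
  a_ne : a ≠ 0
  reg : ∀ p ∈ x, ∀ q ∈ x, a * p = b * q → ∃ r ∈ x, q = a * r
  ess : ∃ B : Subalgebra ℂ L, B.FG ∧ B ≤ x ∧
    ∀ u ∈ x, ∃ v ∈ B, ∃ w ∈ B, w ≠ 0 ∧ w⁻¹ ∈ x ∧ u = v / w
  tr : Algebra.trdeg ℂ L = 2

/-- `f ∈ (a, b) ^ k` in `x`. -/
def InPow (x : Subalgebra ℂ L) (a b : L) (k : ℕ) (f : L) : Prop :=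
  ∃ c : ℕ → L, (∀ i, c i ∈ x) ∧ f = ∑ i ∈ Finset.range (k + 1), c i * a ^ i * b ^ (k - i)

/-- `E` is the order function of the local ring `x`: the exceptional curve of the blow-up. -/
def IsOrd (x : Subalgebra ℂ L) (E : DVal L) : Prop :=
  ∃ a b, RLR x a b ∧ ∀ f ∈ x, f ≠ 0 → ∀ k : ℕ, (k : ℤ) ≤ E.ord f ↔ InPow x a b k f

/-- The ring `x[t]`. -/
def adj (x : Subalgebra ℂ L) (t : L) : Subalgebra ℂ L := x ⊔ Algebra.adjoin ℂ {t}

/-- `y` is the localisation of `x[b / a]` at the maximal ideal `(a, b / a)`: a closed point over `x` on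
the blow-up of `x`. -/
structure Bl (x y : Subalgebra ℂ L) (a b : L) : Prop where
  rlr : RLR x a b
  mem : ∀ z : L, z ∈ y ↔ ∃ u ∈ adj x (b / a), ∃ v ∈ adj x (b / a), v ≠ 0 ∧
    (∃ c : ℂ, c ≠ 0 ∧ ∃ p ∈ adj x (b / a), ∃ q ∈ adj x (b / a),
      v = algebraMap ℂ L c + a * p + b / a * q) ∧ z = u / v

/-- `y` is a closed point over `x` on the blow-up of `x`. -/
def Over (x y : Subalgebra ℂ L) : Prop := ∃ a b, Bl x y a b

end

section

variable {L : Type} [Field L] [Algebra ℂ L]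

/-- The class of a divisor. -/
noncomputable def clOf (P : Set (DVal L)) {Λ : Type} [AddCommGroup Λ] (cls : DVal L → Λ)
    (D : DVal L → ℤ) : Λ := ∑ᶠ ν ∈ P, D ν • cls ν

end

/-- A smooth projective surface with function field `L`. -/
structure PSurf (L : Type) [Field L] [Algebra ℂ L] where
  /-- the prime divisors -/
  prm : Set (DVal L)
  /-- the local rings of the closed points -/
  pts : Set (Subalgebra ℂ L)
  /-- the class group -/
  Λ : Type
  [grp : AddCommGroup Λ]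
  /-- the intersection form -/
  form : Λ →ₗ[ℤ] Λ →ₗ[ℤ] ℤ
  /-- the canonical class -/
  K : Λ
  /-- the class of a prime divisor -/
  cls : DVal L → Λ
  /-- a very ample class -/
  A : Λ
  /-- the Euler characteristic of the structure sheaf -/
  chi0 : ℤ
  dim : Algebra.trdeg ℂ L = 2
  symm : ∀ a b, form a b = form b a
  parity : ∀ D, Even (form D D + form K D)
  ptsNe : pts.Nonempty
  coord : ∀ x ∈ pts, ∃ a b, RLR x a b
  ess : ∀ x ∈ pts, ∀ ν, ν ∈ Ess x ↔ ν ∈ prm ∧ x ≤ ν.ring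
  finDiv : FinDiv prm
  centre : ∀ V : ValuationSubring L, (∀ c : ℂ, algebraMap ℂ L c ∈ V) → V ≠ ⊤ →
    (∃ x ∈ pts, VDom x V) ∨ ∃ ν ∈ prm, ∀ f, f ∈ V ↔ 0 ≤ ν.ord f
  infPts : ∀ ν ∈ prm, {x | x ∈ pts ∧ x ≤ ν.ring}.Infinite
  cl_div : ∀ f : L, f ≠ 0 → clOf prm cls (fun ν => ν.ord f) = 0
  ex_div : ∀ D, IsDiv prm D → clOf prm cls D = 0 → ∃ f : L, f ≠ 0 ∧ ∀ ν ∈ prm, ν.ord f = D ν
  cl_surj : ∀ α, ∃ D, IsDiv prm D ∧ clOf prm cls D = α
  finSec : ∀ D, IsDiv prm D → Module.Finite ℂ (sec prm D)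
  rr : ∀ D D', IsDiv prm D → IsDiv prm D' → clOf prm cls D' = K - clOf prm cls D →
    2 * chi0 + form (clOf prm cls D) (clOf prm cls D - K) ≤ 2 * ((h0 prm D : ℤ) + h0 prm D')
  canon : ∀ ω : TopForm L, ω ≠ 0 → IsDiv prm (fun ν => canOrd ν ω) ∧
    clOf prm cls (fun ν => canOrd ν ω) = K
  A_sq : 1 ≤ form A A
  /-- sections of `A` separate closed points -/
  sep : ∀ D, IsDiv prm D → clOf prm cls D = A → ∀ x ∈ pts, ∀ y ∈ pts, x ≠ y →
    ∃ f, Gen prm y D f ∧ ¬ Gen prm x D f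
  /-- sections of `A` generate `O_x / m_x ^ 2` -/
  jet : ∀ D, IsDiv prm D → clOf prm cls D = A → ∀ x ∈ pts, ∀ E, IsOrd x E → ∀ g,
    LocEqn prm x D g → ∀ z ∈ x, ∃ f ∈ sec prm D, Ge E 2 (f * g - z)
  /-- Serre vanishing and base point freeness of `k A + F`, `k` large -/
  serre : ∀ F, ∃ k0 : ℕ, ∀ k : ℕ, k0 ≤ k → ∀ D, IsDiv prm D → clOf prm cls D = k • A + F →
    2 * (h0 prm D : ℤ) = 2 * chi0 + form (clOf prm cls D) (clOf prm cls D - K) ∧
    (∀ D', IsDiv prm D' → clOf prm cls D' = K - clOf prm cls D → h0 prm D' = 0) ∧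
    ∀ x ∈ pts, ∃ f, Gen prm x D f

attribute [instance] PSurf.grp

/-- Irregularity zero. -/
structure PSurf.Reg {L : Type} [Field L] [Algebra ℂ L] (S : PSurf L) : Prop where
  fg : Module.Finite ℤ S.Λ
  chi0_eq : ∀ D, IsDiv S.prm D → clOf S.prm S.cls D = S.K → S.chi0 = 1 + h0 S.prm D
  /-- numerically trivial classes are torsion -/
  num : ∀ D, (∀ E, S.form D E = 0) → ∃ n : ℕ, 0 < n ∧ n • D = 0

/-- `χ(𝒪) ≥ 1`, and if `χ(𝒪) = 1` then there are infinitely many numerically trivial classes. -/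
structure PSurf.Pos {L : Type} [Field L] [Algebra ℂ L] (S : PSurf L) : Prop where
  chi_pos : 1 ≤ S.chi0
  inf : S.chi0 = 1 → {D : S.Λ | ∀ E, S.form D E = 0}.Infinite

end Pool.Agent.LibLB
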