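import Pool.Agent.LibKB.Api
import Pool.Agent.LibLOC.J3
import Pool.Agent.LibLOC.U4
import Pool.Agent.LibLOC.U6
import Pool.Agent.LibLOC.P6
import Pool.Agent.LibLOC.P7
import Pool.Agent.LibLOC.P8
import Pool.Agent.LibLOC.P9
import Pool.Agent.LibLOC.D5

/-!
THEOREM K+, part LOC: the local lemmas about a regular local ring `x` of dimension two with parameters
`a, b` and about its blow-up (statements used by part BLOW).
-/

set_option autoImplicit false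

open Pool.Agent.LibGMM Pool.Agent.LibK Pool.Agent.LibKB

namespace Pool.Agent.LibLB

variable {L : Type} [Field L] [Algebra ℂ L]

variable {x y y' : Subalgebra ℂ L} {a b a' b' : L} {E E' ν : DVal L}

/-! ### The order function -/

theorem RLR.exists_ord (h : RLR x a b) : ∃ E, IsOrd x E := by
  obtain ⟨E, hE⟩ := LibLOC.exists_ordAt h
  exact ⟨E, LibLOC.isOrd_of_ordAt h hE⟩

/-- The order function does not depend on the parameters. -/
theorem IsOrd.le_iff (hE : IsOrd x E) (h : RLR x a b) {f : L} (hf : f ∈ x) (h0 : f ≠ 0) (k : ℕ) :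
    (k : ℤ) ≤ E.ord f ↔ InPow x a b k f :=
  LibLOC.ordAt_of_isOrd h hE f hf h0 k

theorem IsOrd.ord_ev (hE : IsOrd x E) (h : RLR x a b) {f : MvPolynomial (Fin 2) ℂ}
    (hf : f ≠ 0) : ev a b f ≠ 0 ∧ E.ord (ev a b f) = ordP f :=
  LibLOC.ord_ev h (LibLOC.ordAt_of_isOrd h hE) hf

theorem IsOrd.unique (hE : IsOrd x E) (hE' : IsOrd x E') : E = E' := by
  have hE0 := hE
  obtain ⟨a, b, h, hE1⟩ := hE
  exact LibLOC.ordAt_unique h (LibLOC.ordAt_of_isOrd h hE0) (LibLOC.ordAt_of_isOrd h hE')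

theorem IsOrd.le_ring (hE : IsOrd x E) : x ≤ E.ring := by
  obtain ⟨a, b, h, hE⟩ := hE
  intro f hf
  exact LibLOC.ord_nonneg hE hf

theorem IsOrd.inv_mem (hE : IsOrd x E) {f : L} (hf : f ∈ x) (h0 : f ≠ 0) (h : E.ord f = 0) :
    f⁻¹ ∈ x := by
  obtain ⟨a, b, hx, hE⟩ := hE
  exact LibLOC.inv_mem_of_ord hx hE hf h0 h

theorem IsOrd.notMem_ess (hE : IsOrd x E) : E ∉ Ess x := by
  obtain ⟨a, b, h, hE⟩ := hE
  intro hν
  have ha := LibLOC.ord_a h hE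
  have hb := LibLOC.ord_b h hE
  rcases LibLOC.ess_not_centre h hν with h1 | h1 <;> omega

/-! ### Unique factorisation -/

theorem RLR.factorial (h : RLR x a b) (D : DVal L → ℤ)
    (hD : {ν | ν ∈ Ess x ∧ D ν ≠ 0}.Finite) : ∃ g : L, g ≠ 0 ∧ ∀ ν ∈ Ess x, ν.ord g = D ν :=
  LibLOC.factorial_aux h D hD

theorem RLR.mem_iff (h : RLR x a b) (f : L) : f ∈ x ↔ ∀ ν ∈ Ess x, 0 ≤ ν.ord f :=
  ⟨fun hf _ hν => hν.1 hf, fun hf => LibLOC.mem_of_ess h hf⟩

theorem divisorial_of_ess (h : RLR x a b) (hν : ν ∈ Ess x) : ν.Divisorial :=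
  LibLOC.div_of_ess h hν

/-! ### Jets -/

theorem IsOrd.exists_jet (hE : IsOrd x E) (h : RLR x a b) (m : ℕ) {z : L} (hz : z ∈ x) :
    ∃ P : MvPolynomial (Fin 2) ℂ, (∀ d ∈ P.support, d.degree < m) ∧
      Ge E m (z - ev a b P) := by
  obtain ⟨P, hP, h1⟩ := LibLOC.exists_jetpoly h m hz
  refine ⟨P, hP, fun h0 => ?_⟩
  exact (LibLOC.ordAt_of_isOrd h hE _ (x.sub_mem hz (LibLOC.ev_mem h P)) h0 m).2 h1

theorem IsOrd.jet_count (hE : IsOrd x E) (m : ℕ) (V : Submodule ℂ L) [Module.Finite ℂ V]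
    (hV : ∀ z ∈ V, z ∈ x) :
    Module.finrank ℂ V ≤ Module.finrank ℂ (V ⊓ geSub E m : Submodule ℂ L) +
      m * (m + 1) / 2 := by
  obtain ⟨a, b, h, hE⟩ := hE
  exact LibLOC.jet_count h hE m V hV

theorem IsOrd.jet_count' (hE : IsOrd x E) (m : ℕ) (V : Submodule ℂ L) [Module.Finite ℂ V]
    (hV : ∀ z ∈ V, z ∈ x) (hs : ∀ z ∈ x, ∃ v ∈ V, Ge E m (v - z)) :
    Module.finrank ℂ V = Module.finrank ℂ (V ⊓ geSub E m : Submodule ℂ L) +
      m * (m + 1) / 2 := by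
  obtain ⟨a, b, h, hE⟩ := hE
  exact LibLOC.jet_count' h hE m V hV hs

/-! ### The points over `x` -/

theorem RLR.exists_over (h : RLR x a b) : ∃ y, Bl x y a b := LibLOC.exists_bl h

/-- A point over `x` is again a regular local ring, with parameters `a, b / a`. -/
theorem Bl.rlr' (h : Bl x y a b) : RLR y a (b / a) := LibLOC.bl_rlr h

theorem Bl.over_le (h : Bl x y a b) : x ≤ y := LibLOC.bl_le h

theorem Bl.ess_over (h : Bl x y a b) (hE : IsOrd x E) (ν : DVal L) :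
    ν ∈ Ess y ↔ ν = E ∨ (ν ∈ Ess x ∧ y ≤ ν.ring) :=
  LibLOC.ess_bl h (LibLOC.ordAt_of_isOrd h.rlr hE) ν

theorem Bl.over_ord_a (h : Bl x y a b) (hν : ν ∈ Ess x) (hy : y ≤ ν.ring) :
    ν.ord a = 0 := LibLOC.ord_a_zero h hν hy

/-- Two points over `x` with different directions. -/
theorem Bl.over_ne (h : Bl x y a b) (h' : Bl x y' a' b') (hE : IsOrd x E) (hne : y ≠ y') :
    ∃ c d : ℂ, c ≠ 0 ∧ Ge E 2 (b - c • a' - d • b') := by
  obtain ⟨c, d, hc, h1⟩ := LibLOC.over_ne_aux h h' hne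
  refine ⟨c, d, hc, fun h0 => ?_⟩
  rw [Algebra.smul_def, Algebra.smul_def] at h0 ⊢
  have hm : b - algebraMap ℂ L c * a' - algebraMap ℂ L d * b' ∈ x :=
    LibLOC.inPow_mem h.rlr.memA h.rlr.memB h1
  exact_mod_cast (LibLOC.ordAt_of_isOrd h.rlr hE _ hm h0 2).2 h1

theorem RLR.dom_over (h : RLR x a b) (hE : IsOrd x E) (V : ValuationSubring L)
    (hV : VDom x V) : (∀ f, f ∈ V ↔ 0 ≤ E.ord f) ∨ ∃ y, Over x y ∧ VDom y V :=
  LibLOC.dom_bl h (LibLOC.ordAt_of_isOrd h hE) hV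

theorem RLR.infinite_over (h : RLR x a b) : {y | Over x y}.Infinite := LibLOC.infinite_bl h

/-! ### Canonical divisors -/

theorem RLR.canOrd_ess (h : RLR x a b) (hE : IsOrd x E) (ω : TopForm L) (hω : ω ≠ 0) :
    ∃ w : L, w ≠ 0 ∧ (∀ ν ∈ Ess x, canOrd ν ω = ν.ord w) ∧ canOrd E ω = E.ord w + 1 :=
  LibLOC.canOrd_loc h (LibLOC.ordAt_of_isOrd h hE) ω hω

end Pool.Agent.LibLB
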