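import Pool.Agent.LibLB.Defs
import Pool.Agent.LibL.Base

/-!
THEOREM K+, part B+: the closed points of a normal projective variety, as local rings in the function
field.
-/

set_option autoImplicit false

open Pool.Agent.LibGMM Pool.Agent.LibK Pool.Agent.LibKB Pool.Agent.LibL

namespace Pool.Agent.LibLB

variable {L : Type} [Field L] [Algebra ℂ L]

/-- The local ring of `Y` at the point `p`, as a subalgebra of the function field. -/
def locAlg (Y : NormalModel L) (p : Y.Pt) : Subalgebra ℂ L where
  carrier := Y.loc p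
  mul_mem' := by
    rintro _ _ ⟨a, b, hb, rfl⟩ ⟨c, d, hd, rfl⟩
    refine ⟨a * c, b * d, fun h => ?_, ?_⟩
    · rcases p.prime.mem_or_mem h with h1 | h1
      · exact hb h1
      · exact hd h1
    · push_cast
      exact div_mul_div_comm _ _ _ _
  add_mem' := by
    rintro _ _ ⟨a, b, hb, rfl⟩ ⟨c, d, hd, rfl⟩
    have hb0 : (b : L) ≠ 0 := fun h => hb (by
      rw [(Subtype.ext h : b = 0)]
      exact p.P.zero_mem)
    have hd0 : (d : L) ≠ 0 := fun h => hd (by
      rw [(Subtype.ext h : d = 0)]
      exact p.P.zero_mem)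
    refine ⟨a * d + b * c, b * d, fun h => ?_, ?_⟩
    · rcases p.prime.mem_or_mem h with h1 | h1
      · exact hb h1
      · exact hd h1
    · push_cast
      exact div_add_div _ _ hb0 hd0
  algebraMap_mem' := by
    intro c
    refine ⟨algebraMap ℂ _ c, 1, fun h => p.prime.ne_top ((Ideal.eq_top_iff_one _).2 h), ?_⟩
    push_cast
    rw [div_one]

theorem mem_locAlg {Y : NormalModel L} {p : Y.Pt} {z : L} : z ∈ locAlg Y p ↔ z ∈ Y.loc p :=
  Iff.rfl

theorem through_iff {Y : NormalModel L} {p : Y.Pt} {ν : DVal L} :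
    Y.Through ν p ↔ locAlg Y p ≤ ν.ring := Iff.rfl

/-- The local rings of the closed points. -/
def closedPts (Y : NormalModel L) : Set (Subalgebra ℂ L) :=
  {x | ∃ p : Y.Pt, p.P.IsMaximal ∧ x = locAlg Y p}

end Pool.Agent.LibLB
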