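import Pool.Agent.LibLB.Blow
import Pool.Agent.LibKB.Conv

/-!
THEOREM K+, part BLOW: divisors as finitely supported functions on the subtype of prime divisors, and
the statement `CurveFacts` of part B2.
-/

set_option autoImplicit false

open Pool.Agent.LibGMM Pool.Agent.LibK Pool.Agent.LibKB

namespace Pool.Agent.LibLB

variable {L : Type} [Field L] [Algebra ℂ L]

/-- The facts on curves (part CUR). -/
def CurveFacts (S : PSurf L) : Prop :=
  ∀ ν ∈ S.prm, 1 ≤ S.form S.A (S.cls ν) ∧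
    (∀ D, IsDiv S.prm D → S.form (S.cl D) (S.cls ν) < 0 →
      h0 S.prm D = h0 S.prm (fun μ => D μ - prd ν μ)) ∧
    (∀ D, IsDiv S.prm D → 0 ≤ S.form (S.cl D) (S.cls ν) →
      (h0 S.prm D : ℤ) ≤ h0 S.prm (fun μ => D μ - prd ν μ) + S.form (S.cl D) (S.cls ν) + 1) ∧
    0 ≤ 2 + S.form (S.cls ν) (S.cls ν) + S.form S.K (S.cls ν) ∧
    (∃ c₀ : ℤ, ∀ D, IsDiv S.prm D → c₀ ≤ S.form (S.cl D) (S.cls ν) →
      2 * (h0 S.prm D : ℤ) ≤ 2 * h0 S.prm (fun μ => D μ - prd ν μ) +
        2 * S.form (S.cl D) (S.cls ν) - S.form (S.cls ν) (S.cls ν) - S.form S.K (S.cls ν)) ∧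
    ∀ μ ∈ S.prm, μ ≠ ν → 0 ≤ S.form (S.cls μ) (S.cls ν)

/-- The Hodge index theorem (part CUR). -/
def HodgeFact (S : PSurf L) : Prop :=
  ∀ D, S.form S.A D = 0 → S.form D D < 0 ∨ ∀ E, S.form D E = 0

namespace PSurf

variable (S : PSurf L)

/-- The class map on finitely supported functions. -/
noncomputable def clF : (S.prm →₀ ℤ) →+ S.Λ :=
  AddMonoidHom.mk' (fun D => S.cl (ext D)) (by
    intro D D'
    have h1 : clOf S.prm S.cls (ext (D + D')) =
        clOf S.prm S.cls (fun ν => ext D ν + ext D' ν) := by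
      refine clOf_congr fun ν hν => ?_
      have h2 := ext_apply (D + D') ⟨ν, hν⟩
      have h3 := ext_apply D ⟨ν, hν⟩
      have h4 := ext_apply D' ⟨ν, hν⟩
      rw [h2, h3, h4]
      rfl
    change clOf S.prm S.cls (ext (D + D')) = clOf S.prm S.cls (ext D) + clOf S.prm S.cls (ext D')
    rw [h1, clOf_add (isDiv_ext D) (isDiv_ext D')])

theorem clF_apply (D : S.prm →₀ ℤ) : S.clF D = S.cl (ext D) := rfl

theorem ext_single (ν : S.prm) {μ : DVal L} (hμ : μ ∈ S.prm) :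
    ext (Finsupp.single ν (1 : ℤ)) μ = prd ν.1 μ := by
  classical
  rw [ext_apply _ ⟨μ, hμ⟩, Finsupp.single_apply]
  by_cases h : μ = ν.1
  · subst h
    rw [prd_self, if_pos rfl]
  · rw [prd_ne h, if_neg]
    rintro rfl
    exact h rfl

theorem clF_single (ν : S.prm) : S.clF (Finsupp.single ν 1) = S.cls ν.1 := by
  rw [clF_apply]
  change clOf _ _ _ = _
  rw [clOf_congr (D' := prd ν.1) fun μ hμ => S.ext_single ν hμ, clOf_prd ν.2]

theorem clF_toF (D : DVal L → ℤ) (hD : IsDiv S.prm D) : S.clF (toF D hD) = S.cl D :=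
  clOf_congr fun _ hν => ext_toF D hD hν

end PSurf

end Pool.Agent.LibLB
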