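import Pool.Agent.LibLG.Surf

/-!
THEOREM K+, part BLOW: the records `SurfB` and `BlowUpB` from the records `SurfG` and `BlowUpG`.
-/

set_option autoImplicit false

open Pool.Agent.LibGMM Pool.Agent.LibK Pool.Agent.LibL Pool.Agent.LibLG

namespace Pool.Agent.LibLB

variable {L : Type} [Field L] [Algebra ℂ L]

/-- A surface of irregularity zero. -/
noncomputable def toSurfB (S : SurfG L) (h : S.IsReg) : SurfB L where
  prm := S.prm
  pts := S.pts
  Λ := S.Λ
  grp := S.grp
  fin := h.fin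
  form := S.form
  K := S.K
  cl := S.cl
  h0 := S.h0
  A := S.A
  essFin := S.essFin
  pts_nonempty := S.pts_nonempty
  finDiv := S.finDiv
  cl_surj := S.cl_surj
  cl_zero_iff := S.cl_zero_iff
  finSec := S.finSec
  h0_cl := S.h0_cl
  h0_zero := S.h0_zero
  local_iff := S.local_iff
  factorial := S.factorial
  centre := S.centre
  symm := S.symm
  parity := S.parity
  rr := fun D => by
    have h1 := S.rr D
    rw [h.χ_eq] at h1
    exact h1
  A_sq := S.A_sq
  hodge := fun D hD => (S.hodge D hD).imp_right (h.num D)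
  A_pos := S.A_pos
  serre := fun F => by
    obtain ⟨n0, hn0⟩ := S.serre F
    refine ⟨n0, fun n hn => ?_⟩
    have h1 := hn0 n hn
    rw [h.χ_eq] at h1
    exact h1
  A_bpf := S.A_bpf
  C1 := S.C1
  C1' := S.C1'
  C2 := S.C2
  pa_nonneg := S.pa_nonneg
  C3 := S.C3
  C4 := S.C4

/-- The record of the blow-up. -/
def toBlowUpB {S S' : SurfG L} (h : S.IsReg) (h' : S'.IsReg) {x : Subalgebra ℂ L}
    (b : BlowUpG S x S') : BlowUpB (toSurfB S h) x (toSurfB S' h') where
  mem := b.mem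
  E := b.E
  E_notMem := b.E_notMem
  prm_eq := b.prm_eq
  pts_old := b.pts_old
  φ := b.φ
  form_eq := b.form_eq
  K_eq := b.K_eq
  cl_E := b.cl_E
  mult := b.mult
  mult_pos := b.mult_pos
  cl_old := b.cl_old
  h0_nonneg := b.h0_nonneg
  h0_neg := b.h0_neg

/-- A family of surfaces of irregularity zero closed under blow-ups. -/
theorem blowUpClosedB {𝒮 : SurfG L → Prop} (h : BlowUpClosedG 𝒮) (hR : ∀ S, 𝒮 S → S.IsReg) :
    BlowUpClosedB fun T => ∃ (S : SurfG L) (hS : 𝒮 S), T = toSurfB S (hR S hS) := by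
  rintro _ ⟨S, hS, rfl⟩ x hx
  obtain ⟨S', hS', ⟨b⟩⟩ := h S hS x hx
  exact ⟨toSurfB S' (hR S' hS'), ⟨S', hS', rfl⟩, ⟨toBlowUpB (hR S hS) (hR S' hS') b⟩⟩

end Pool.Agent.LibLB
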