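import Pool.Agent.LibLB.Rec
import Pool.Agent.LibLB.RecB

/-!
THEOREM K+ and K++, part BLOW: the targets `SurfaceModelsG` and `SurfaceModelsB` from the base surface,
the facts on curves and the fact that divisorial valuations are reached by blow-ups.
-/

set_option autoImplicit false

open Pool.Agent.LibGMM Pool.Agent.LibK Pool.Agent.LibKB Pool.Agent.LibL Pool.Agent.LibLG

namespace Pool.Agent.LibLB

theorem PSurf.divisorial {L : Type} [Field L] [Algebra ℂ L] (S : PSurf L) {ν : DVal L}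
    (hν : ν ∈ S.prm) : ν.Divisorial := by
  obtain ⟨x, hx1, hx2⟩ := (S.infPts ν hν).nonempty
  obtain ⟨a, b, h⟩ := S.coord x hx1
  exact divisorial_of_ess h ((S.ess x hx1 ν).2 ⟨hν, hx2⟩)

/-- The family `𝒮` is closed under blow-ups. -/
def BlowHyp (L : Type) [Field L] [Algebra ℂ L] (𝒮 : PSurf L → Prop) : Prop :=
  ∀ (S : PSurf L), 𝒮 S → ∀ x ∈ S.pts, ∃ (S' : PSurf L) (E : DVal L), 𝒮 S' ∧
    IsOrd x E ∧ S'.prm = insert E S.prm ∧ S'.pts = (S.pts \ {x}) ∪ {y | Over x y}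

/-- Every finite set of divisorial valuations is reached by blow-ups (part LOC). -/
def Reach : Prop :=
  ∀ (L : Type) [Field L] [Algebra ℂ L] (𝒮 : PSurf L → Prop), BlowHyp L 𝒮 →
    ∀ (S : PSurf L), 𝒮 S → ∀ (T : Set (DVal L)), T.Finite → (∀ ν ∈ T, ν.Divisorial) →
      ∃ S' : PSurf L, 𝒮 S' ∧ S.prm ⊆ S'.prm ∧ (S'.prm \ S.prm).Finite ∧ T ⊆ S'.prm

/-- The iterated blow-ups of a surface. -/
inductive Iter {L : Type} [Field L] [Algebra ℂ L] (S0 : PSurf L) : PSurf L → Prop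
  | base : Iter S0 S0
  | blow {S : PSurf L} (h : Iter S0 S) {x : Subalgebra ℂ L} (hx : x ∈ S.pts) {E : DVal L}
      (hE : IsOrd x E) : Iter S0 (S.blow x hx E hE)

theorem blowHyp_iter {L : Type} [Field L] [Algebra ℂ L] (S0 : PSurf L) :
    BlowHyp L (Iter S0) := by
  intro P hP z hz
  obtain ⟨E, hE⟩ := (P.pt hz).exists_ord
  refine ⟨P.blow z hz E hE, E, hP.blow hz hE, hE, rfl, ?_⟩
  ext y
  constructor
  · rintro (⟨h7, h8⟩ | h7)
    · exact Or.inl ⟨h7, h8⟩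
    · exact Or.inr h7
  · rintro (⟨h7, h8⟩ | h7)
    · exact Or.inl ⟨h7, h8⟩
    · exact Or.inr h7

/-- **The family of the iterated blow-ups of a surface.** -/
theorem exists_family
    (hC : ∀ (L : Type) [Field L] [Algebra ℂ L] (S : PSurf L), CurveFacts S)
    (hH : ∀ (L : Type) [Field L] [Algebra ℂ L] (S : PSurf L), HodgeFact S)
    (hR : Reach) {F : Type} [Field F] [Algebra ℂ F] (P0 : PSurf F) :
    ∃ 𝒮 : SurfG F → Prop, BlowUpClosedG 𝒮 ∧ 𝒮 (P0.toSurfG (hC F) (hH F)) ∧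
      (∀ 𝒬 : SurfG F → Prop, 𝒬 (P0.toSurfG (hC F) (hH F)) →
        (∀ S, 𝒬 S → ∀ x S', BlowUpG S x S' → 𝒬 S') → ∀ S, 𝒮 S → 𝒬 S) ∧
      ∀ T : Set (DVal F), T.Finite → (∀ ν ∈ T, ν.Divisorial) →
        ∃ S, 𝒮 S ∧ T ⊆ S.prm ∧ P0.prm ⊆ S.prm ∧
          (S.prm \ P0.prm).Finite ∧ (∀ ν ∈ S.prm, ν.Divisorial) ∧
          ∀ ω : TopForm F, ω ≠ 0 → ∃ D : S.prm →₀ ℤ, S.cl D = S.K ∧
            ∀ ν : S.prm, D ν = canOrd ν.1 ω := by
  refine ⟨fun S => ∃ P : PSurf F, Iter P0 P ∧ S = P.toSurfG (hC F) (hH F), ?_,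
    ⟨P0, Iter.base, rfl⟩, ?_, ?_⟩
  · rintro _ ⟨P, hP, rfl⟩ z hz
    obtain ⟨E, hE⟩ := (P.pt hz).exists_ord
    exact ⟨(P.blow z hz E hE).toSurfG (hC F) (hH F), ⟨_, hP.blow hz hE, rfl⟩,
      P.nonempty_blowUp (hC F) (hH F) hz hE⟩
  · rintro 𝒬 h1 h2 _ ⟨P, hP, rfl⟩
    induction hP with
    | base => exact h1
    | @blow S _ x hx E hE ih => exact h2 _ ih x _ (S.blowUp (hC F) (hH F) x hx E hE)
  · intro T hT hTd
    obtain ⟨S, hS, h4, h5, h6⟩ := hR F (Iter P0) (blowHyp_iter P0) P0 Iter.base T hT hTd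
    refine ⟨S.toSurfG (hC F) (hH F), ⟨S, hS, rfl⟩, h6, h4, h5,
      fun ν hν => S.divisorial hν, ?_⟩
    intro ω hω
    obtain ⟨h7, h8⟩ := S.canon ω hω
    refine ⟨toF (fun ν => canOrd ν ω) h7, ?_, fun ν => toF_apply _ _ ν⟩
    exact (S.clF_toF _ h7).trans h8

/-- The base surface. -/
def BaseExists : Prop :=
  ∀ (L : Type) [Field L] [Algebra ℂ L] (Y : NormalModel L), IsSmoothSurface Y →
    ∃ S : PSurf L, S.prm = primes Y ∧ (Regular Y → S.Reg) ∧ (ChiPos Y → S.Pos)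

/-- **Part B of THEOREM K++** from the remaining parts. -/
theorem surfaceModelsG_of
    (hC : ∀ (L : Type) [Field L] [Algebra ℂ L] (S : PSurf L), CurveFacts S)
    (hH : ∀ (L : Type) [Field L] [Algebra ℂ L] (S : PSurf L), HodgeFact S)
    (hR : Reach) (hB : BaseExists) : SurfaceModelsG := by
  intro F _ _ Y hY
  obtain ⟨S0, h1, h2, h3⟩ := hB F Y hY
  refine ⟨fun S => ∃ P : PSurf F, (Regular Y → P.Reg) ∧ (ChiPos Y → P.Pos) ∧
    S = P.toSurfG (hC F) (hH F), ?_, ?_, ?_, ?_⟩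
  · rintro _ ⟨P, hP1, hP2, rfl⟩ z hz
    obtain ⟨E, hE⟩ := (P.pt hz).exists_ord
    exact ⟨(P.blow z hz E hE).toSurfG (hC F) (hH F),
      ⟨_, fun h => (hP1 h).blow hz hE, fun h => (hP2 h).blow hz hE, rfl⟩,
      P.nonempty_blowUp (hC F) (hH F) hz hE⟩
  · rintro h _ ⟨P, hP1, -, rfl⟩
    exact (hP1 h).toSurfG (hC F) (hH F)
  · rintro h _ ⟨P, -, hP2, rfl⟩
    exact (hP2 h).toSurfG (hC F) (hH F)
  · intro T hT hTd
    obtain ⟨S, hS, h4, h5, h6⟩ := hR F (fun P => (Regular Y → P.Reg) ∧ (ChiPos Y → P.Pos))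
      (fun P hP z hz => by
        obtain ⟨E, hE⟩ := (P.pt hz).exists_ord
        refine ⟨P.blow z hz E hE, E, ⟨fun h => (hP.1 h).blow hz hE, fun h => (hP.2 h).blow hz hE⟩,
          hE, rfl, ?_⟩
        ext y
        constructor
        · rintro (⟨h7, h8⟩ | h7)
          · exact Or.inl ⟨h7, h8⟩
          · exact Or.inr h7
        · rintro (⟨h7, h8⟩ | h7)
          · exact Or.inl ⟨h7, h8⟩
          · exact Or.inr h7) S0 ⟨h2, h3⟩ T hT hTd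
    rw [h1] at h4 h5
    refine ⟨S.toSurfG (hC F) (hH F), ⟨S, hS.1, hS.2, rfl⟩, h6, h4, h5,
      fun ν hν => S.divisorial hν, ?_⟩
    intro ω hω
    obtain ⟨h7, h8⟩ := S.canon ω hω
    refine ⟨toF (fun ν => canOrd ν ω) h7, ?_, fun ν => toF_apply _ _ ν⟩
    exact (S.clF_toF _ h7).trans h8

/-- **Part B of THEOREM K+** from part B of THEOREM K++. -/
theorem surfaceModelsB_of (hG : SurfaceModelsG) : SurfaceModelsB := by
  intro F _ _ Y hY hr T hT hTd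
  obtain ⟨𝒮, h1, h2, -, h3⟩ := hG F Y hY
  obtain ⟨S, hS, h4, h5, h6, h7, h8⟩ := h3 T hT hTd
  exact ⟨_, blowUpClosedB h1 (h2 hr), toSurfB S (h2 hr S hS), ⟨S, hS, rfl⟩, h4, h5, h6, h7, h8⟩

end Pool.Agent.LibLB
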