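import Pool.Agent.LibLB.Loc

/-!
THEOREM K+, part BLOW: basic facts about divisors, classes, sections and germs on a `PSurf`.
-/

set_option autoImplicit false

open Pool.Agent.LibGMM Pool.Agent.LibK Pool.Agent.LibKB

namespace Pool.Agent.LibLB

variable {L : Type} [Field L] [Algebra ℂ L]

/-! ### Classes -/

section

variable {P : Set (DVal L)} {Λ : Type} [AddCommGroup Λ] {cls : DVal L → Λ} {D D' : DVal L → ℤ}

theorem clOf_congr (h : ∀ ν ∈ P, D ν = D' ν) : clOf P cls D = clOf P cls D' := by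
  unfold clOf
  exact finsum_mem_congr rfl fun ν hν => by rw [h ν hν]

theorem clOf_supp (hD : IsDiv P D) : (P ∩ Function.support fun ν => D ν • cls ν).Finite := by
  refine hD.subset ?_
  rintro ν ⟨h1, h2⟩
  refine ⟨h1, fun h3 => h2 ?_⟩
  simp [h3]

theorem clOf_add (hD : IsDiv P D) (hD' : IsDiv P D') :
    clOf P cls (fun ν => D ν + D' ν) = clOf P cls D + clOf P cls D' := by
  unfold clOf
  rw [← finsum_mem_add_distrib' (clOf_supp hD) (clOf_supp hD')]
  exact finsum_mem_congr rfl fun ν _ => add_smul _ _ _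

theorem clOf_zsmul (k : ℤ) (hD : IsDiv P D) :
    clOf P cls (fun ν => k * D ν) = k • clOf P cls D := by
  unfold clOf
  rw [show (∑ᶠ ν ∈ P, D ν • cls ν) = _ from finsum_mem_eq_sum _ (clOf_supp (cls := cls) hD),
    Finset.smul_sum, finsum_mem_eq_sum_of_subset (t := (clOf_supp (cls := cls) hD).toFinset)]
  · exact Finset.sum_congr rfl fun ν _ => mul_smul _ _ _
  · intro ν hν
    rw [Set.Finite.coe_toFinset]
    refine ⟨hν.1, fun h => hν.2 ?_⟩
    change (k * D ν) • cls ν = 0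
    rw [mul_smul]
    change D ν • cls ν = 0 at h
    rw [h, smul_zero]
  · intro ν hν
    rw [Set.Finite.coe_toFinset] at hν
    exact hν.1

theorem clOf_neg (hD : IsDiv P D) : clOf P cls (fun ν => - D ν) = - clOf P cls D := by
  have h := clOf_zsmul (cls := cls) (-1) hD
  simpa using h

theorem clOf_prd {ν : DVal L} (hν : ν ∈ P) : clOf P cls (prd ν) = cls ν := by
  classical
  unfold clOf
  rw [finsum_mem_eq_sum_of_subset (t := {ν}), Finset.sum_singleton]
  · simp [prd]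
  · intro μ hμ
    by_contra h
    apply hμ.2
    have h1 : μ ≠ ν := by simpa using h
    change prd ν μ • cls μ = 0
    simp [prd, h1]
  · intro μ hμ
    have h1 : μ = ν := by simpa using hμ
    rw [h1]
    exact hν

/-- Adding one prime divisor to the set of primes. -/
theorem clOf_insert {E : DVal L} (hE : E ∉ P) (hD : IsDiv P D) :
    clOf (insert E P) cls D = D E • cls E + clOf P cls D := by
  unfold clOf
  rw [finsum_mem_insert' _ hE (clOf_supp hD)]

end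

/-! ### The class group of the blow-up -/

section

variable {Λ : Type}

/-- `(u, j)`: the class `π* u + j E` of the blow-up. -/
def sn (u : Λ) (j : ℤ) : Λ × ℤ := (u, j)

theorem sn_add [AddCommGroup Λ] (u v : Λ) (j k : ℤ) : sn u j + sn v k = sn (u + v) (j + k) := rfl

theorem sn_sub [AddCommGroup Λ] (u v : Λ) (j k : ℤ) : sn u j - sn v k = sn (u - v) (j - k) := rfl

theorem smul_sn [AddCommGroup Λ] (k : ℤ) (u : Λ) (j : ℤ) : k • sn u j = sn (k • u) (k * j) := by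
  change (k • u, k • j) = (k • u, k * j)
  rw [smul_eq_mul]

theorem sn_inj {u v : Λ} {j k : ℤ} (h : sn u j = sn v k) : u = v ∧ j = k :=
  ⟨congrArg Prod.fst h, congrArg Prod.snd h⟩

theorem exists_sn (w : Λ × ℤ) : ∃ u j, w = sn u j := ⟨w.1, w.2, rfl⟩

end

/-! ### Linear equivalence on a surface -/

namespace PSurf

variable (S : PSurf L)

/-- The class of a divisor. -/
noncomputable def cl (D : DVal L → ℤ) : S.Λ := clOf S.prm S.cls D

variable {S} {D D' : DVal L → ℤ}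

theorem exists_lin (hD : IsDiv S.prm D) (hD' : IsDiv S.prm D') (h : S.cl D' = S.cl D) :
    ∃ g : L, g ≠ 0 ∧ ∀ ν ∈ S.prm, D' ν = D ν + ν.ord g := by
  have h1 : clOf S.prm S.cls (fun ν => D' ν + - D ν) = 0 := by
    rw [clOf_add hD' hD.neg, clOf_neg hD]
    change S.cl D' + - S.cl D = 0
    rw [h]
    exact add_neg_cancel _
  obtain ⟨g, hg, h2⟩ := S.ex_div _ (hD'.add hD.neg) h1
  exact ⟨g, hg, fun ν hν => by rw [h2 ν hν]; ring⟩

theorem h0_eq (hD : IsDiv S.prm D) (hD' : IsDiv S.prm D') (h : S.cl D' = S.cl D) :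
    h0 S.prm D' = h0 S.prm D := by
  obtain ⟨g, hg, h1⟩ := exists_lin hD hD' h
  exact h0_lin hg h1

variable (S)

/-- A divisor in a given class. -/
noncomputable def rep (α : S.Λ) : DVal L → ℤ := (S.cl_surj α).choose

theorem isDiv_rep (α : S.Λ) : IsDiv S.prm (S.rep α) := (S.cl_surj α).choose_spec.1

theorem cl_rep (α : S.Λ) : S.cl (S.rep α) = α := (S.cl_surj α).choose_spec.2

/-- The number of sections of a class. -/
noncomputable def hh (α : S.Λ) : ℕ := h0 S.prm (S.rep α)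

variable {S}

theorem hh_cl (hD : IsDiv S.prm D) : S.hh (S.cl D) = h0 S.prm D :=
  h0_eq hD (S.isDiv_rep _) (S.cl_rep _)

theorem rr' (α : S.Λ) :
    2 * S.chi0 + S.form α (α - S.K) ≤ 2 * ((S.hh α : ℤ) + S.hh (S.K - α)) := by
  have h := S.rr (S.rep α) (S.rep (S.K - α)) (S.isDiv_rep _) (S.isDiv_rep _) (by
    change S.cl _ = S.K - S.cl _
    rw [S.cl_rep, S.cl_rep])
  change 2 * S.chi0 + S.form (S.cl _) (S.cl _ - S.K) ≤ _ at h
  rw [S.cl_rep] at h
  exact h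

/-- Decomposition of a divisor of class `k α + β`. -/
theorem exists_decomp (k : ℤ) {DA DF : DVal L → ℤ} (hD : IsDiv S.prm D) (hA : IsDiv S.prm DA)
    (hF : IsDiv S.prm DF) (h : S.cl D = k • S.cl DA + S.cl DF) :
    ∃ g : L, g ≠ 0 ∧ ∀ ν ∈ S.prm, D ν = k * DA ν + DF ν + ν.ord g := by
  refine exists_lin ((hA.zsmul k).add hF) hD ?_
  rw [h]
  change _ = clOf _ _ _
  rw [clOf_add (hA.zsmul k) hF, clOf_zsmul k hA]
  rfl

end PSurf

/-! ### Germs -/

/-- `x` is a closed point of the surface with set of prime divisors `P`. -/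
structure Pt (P : Set (DVal L)) (x : Subalgebra ℂ L) : Prop where
  coord : ∃ a b, RLR x a b
  ess : ∀ ν, ν ∈ Ess x ↔ ν ∈ P ∧ x ≤ ν.ring

theorem PSurf.pt (S : PSurf L) {x : Subalgebra ℂ L} (hx : x ∈ S.pts) : Pt S.prm x :=
  ⟨S.coord x hx, S.ess x hx⟩

/-- A unit of `x` has order zero along the valuations which are `≥ 0` on `x`. -/
theorem ord_eq_zero_of_unit {x : Subalgebra ℂ L} {f : L} (hf : f ∈ x) (h0 : f ≠ 0)
    (hf' : f⁻¹ ∈ x) {ν : DVal L} (hν : x ≤ ν.ring) : ν.ord f = 0 := by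
  have h1 : 0 ≤ ν.ord f := hν hf
  have h2 : 0 ≤ ν.ord f⁻¹ := hν hf'
  rw [ord_inv ν h0] at h2
  omega

namespace Pt

variable {P : Set (DVal L)} {x : Subalgebra ℂ L} {E : DVal L} {f g g' : L} {D D' : DVal L → ℤ}

theorem isDiv_ess (hx : Pt P x) (hD : IsDiv P D) : {ν | ν ∈ Ess x ∧ D ν ≠ 0}.Finite := by
  refine hD.subset ?_
  rintro ν ⟨h1, h2⟩
  exact ⟨((hx.ess ν).1 h1).1, h2⟩

theorem exists_loc (hx : Pt P x) (hD : IsDiv P D) : ∃ g, LocEqn P x D g := by
  obtain ⟨a, b, hab⟩ := hx.coord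
  obtain ⟨g, hg, h1⟩ := hab.factorial D (hx.isDiv_ess hD)
  exact ⟨g, hg, fun ν hν hxν => h1 ν ((hx.ess ν).2 ⟨hν, hxν⟩)⟩

theorem exists_ord (hx : Pt P x) : ∃ E, IsOrd x E := by
  obtain ⟨a, b, hab⟩ := hx.coord
  exact hab.exists_ord

theorem mem_iff (hx : Pt P x) : f ∈ x ↔ ∀ ν ∈ P, x ≤ ν.ring → 0 ≤ ν.ord f := by
  obtain ⟨a, b, hab⟩ := hx.coord
  rw [hab.mem_iff]
  constructor
  · intro h ν hν hxν
    exact h ν ((hx.ess ν).2 ⟨hν, hxν⟩)
  · intro h ν hν
    have h1 := (hx.ess ν).1 hν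
    exact h ν h1.1 h1.2

/-- The germ at `x` of a section. -/
theorem germ_mem (hx : Pt P x) (hg : LocEqn P x D g) (hf : f ∈ sec P D) : f * g ∈ x := by
  rw [hx.mem_iff]
  intro ν hν hxν
  by_cases h0 : f = 0
  · rw [h0, zero_mul, ν.ord_zero]
  rw [ν.ord_mul _ _ h0 hg.1, hg.2 ν hν hxν]
  exact hf ν hν h0

theorem ord_zero_of_gen (hx : Pt P x) (hg : LocEqn P x D g) (h : Gen P x D f) {E : DVal L}
    (hE : x ≤ E.ring) : E.ord (f * g) = 0 := by
  have h2 : f * g ≠ 0 := mul_ne_zero h.2.1 hg.1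
  refine ord_eq_zero_of_unit (hx.germ_mem hg h.1) h2 ?_ hE
  rw [hx.mem_iff]
  intro ν hν hxν
  rw [ord_inv ν h2, ν.ord_mul _ _ h.2.1 hg.1, hg.2 ν hν hxν, h.2.2 ν hν hxν, neg_zero]

theorem gen_iff (hx : Pt P x) (hE : IsOrd x E) (hg : LocEqn P x D g)
    (hf : f ∈ sec P D) (h0 : f ≠ 0) : Gen P x D f ↔ E.ord (f * g) = 0 := by
  constructor
  · intro h
    exact hx.ord_zero_of_gen hg h hE.le_ring
  · intro h
    refine ⟨hf, h0, fun ν hν hxν => ?_⟩
    have h1 := hx.germ_mem hg hf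
    have h2 : f * g ≠ 0 := mul_ne_zero h0 hg.1
    have h3 := ord_eq_zero_of_unit h1 h2 (hE.inv_mem h1 h2 h) hxν
    rwa [ν.ord_mul _ _ h0 hg.1, hg.2 ν hν hxν] at h3

theorem pos_of_not_gen (hx : Pt P x) (hE : IsOrd x E) (hg : LocEqn P x D g)
    (hf : f ∈ sec P D) (h : ¬ Gen P x D f) : Ge E 1 (f * g) := by
  intro h1
  have h0 : f ≠ 0 := left_ne_zero_of_mul h1
  have h2 : 0 ≤ E.ord (f * g) := hE.le_ring (hx.germ_mem hg hf)
  have h3 : E.ord (f * g) ≠ 0 := fun h4 => h ((hx.gen_iff hE hg hf h0).2 h4)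
  omega

theorem not_gen_of_pos (hx : Pt P x) (hE : IsOrd x E) (hg : LocEqn P x D g)
    (h : Ge E 1 (f * g)) : ¬ Gen P x D f := by
  intro h1
  have h2 := (hx.gen_iff hE hg h1.1 h1.2.1).1 h1
  have h3 := h (mul_ne_zero h1.2.1 hg.1)
  omega

/-- The quotient of two local equations is a unit. -/
theorem loc_div_mem (hx : Pt P x) (hg : LocEqn P x D g) (hg' : LocEqn P x D g') :
    g / g' ∈ x := by
  rw [hx.mem_iff]
  intro ν hν hxν
  rw [ord_div ν hg.1 hg'.1, hg.2 ν hν hxν, hg'.2 ν hν hxν, sub_self]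

theorem loc_unique (hx : Pt P x) (hE : x ≤ E.ring) (hg : LocEqn P x D g)
    (hg' : LocEqn P x D g') : E.ord g = E.ord g' := by
  have h2 := ord_eq_zero_of_unit (hx.loc_div_mem hg hg') (div_ne_zero hg.1 hg'.1)
    (by rw [inv_div]; exact hx.loc_div_mem hg' hg) hE
  rw [ord_div E hg.1 hg'.1] at h2
  omega

end Pt

namespace PSurf

/-- The centre, weak form: every valuation ring contains the local ring of a closed point. -/
theorem exists_le (S : PSurf L) (V : ValuationSubring L) (hV : ∀ c : ℂ, algebraMap ℂ L c ∈ V) :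
    ∃ x ∈ S.pts, ∀ f ∈ x, f ∈ V := by
  by_cases h : V = ⊤
  · obtain ⟨x, hx⟩ := S.ptsNe
    exact ⟨x, hx, fun f _ => by rw [h]; exact ValuationSubring.mem_top f⟩
  · rcases S.centre V hV h with ⟨x, hx, h1⟩ | ⟨ν, hν, h1⟩
    · exact ⟨x, hx, h1.1⟩
    · obtain ⟨x, hx1, hx2⟩ := (S.infPts ν hν).nonempty
      exact ⟨x, hx1, fun f hf => (h1 f).2 (hx2 hf)⟩

end PSurf

/-! ### Variants of the local lemmas -/

section

variable {x y y' : Subalgebra ℂ L} {a b a' b' : L} {E ν : DVal L}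

theorem RLR.over_le (_ : RLR x a b) (h' : Bl x y a b) : x ≤ y := h'.over_le

theorem RLR.ess_over (_ : RLR x a b) (h' : Bl x y a b) (hE : IsOrd x E) (ν : DVal L) :
    ν ∈ Ess y ↔ ν = E ∨ (ν ∈ Ess x ∧ y ≤ ν.ring) := h'.ess_over hE ν

theorem RLR.over_ord_a (_ : RLR x a b) (h' : Bl x y a b) (hν : ν ∈ Ess x)
    (hy : y ≤ ν.ring) : ν.ord a = 0 := h'.over_ord_a hν hy

theorem IsOrd.ord_a (hE : IsOrd x E) (h : RLR x a b) : a ≠ 0 ∧ E.ord a = 1 ∧ a ∈ x := by
  have h1 : ev a b (MvPolynomial.X 0) = a := by simp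
  have h3 := hE.ord_ev h (MvPolynomial.X_ne_zero 0)
  rw [h1, ordP_X] at h3
  exact ⟨h3.1, by exact_mod_cast h3.2, h.memA⟩

theorem IsOrd.ord_b (hE : IsOrd x E) (h : RLR x a b) : b ≠ 0 ∧ E.ord b = 1 ∧ b ∈ x := by
  have h1 : ev a b (MvPolynomial.X 1) = b := by simp
  have h3 := hE.ord_ev h (MvPolynomial.X_ne_zero 1)
  rw [h1, ordP_X] at h3
  exact ⟨h3.1, by exact_mod_cast h3.2, h.memB⟩

end

end Pool.Agent.LibLB
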