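import Pool.Agent.LibLB.R05

/-! [KB R06] Principal divisors and classes on the blow-up.

Proof. `bClDiv`: `bcl` (`isDiv_ord S.finDiv`), `S.cl_div`, `mul_ord`. `bExDiv`: `bcl`, `sn_inj`
(`0 = sn 0 0`), so `S.cl D = 0` and `D E = S.mul x E D`; `S.ex_div` gives `f` with `ν.ord f = D ν` on
`S.prm`; `S.mul x E D = E.ord f` (`mul_congr`, `mul_ord`). `bSurj`: `exists_sn`, take `D0` with
`S.cl D0 = u` and change its value at `E` (`E ∉ S.prm`): `D ν = if ν = E then j + S.mul x E D0 else D0 ν`.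
`bDeg`: `bCls_E`, `bCls_old`, `sn_zero`. `bASq`: `frm_sn`, `frm_smul_left`, `frm_smul_right`:
`4 * frm A A - 1 ≥ 3`. -/

set_option autoImplicit false

open Pool.Agent.LibGMM Pool.Agent.LibK Pool.Agent.LibKB

namespace Pool.Agent.LibLB

variable {L : Type} [Field L] [Algebra ℂ L]

namespace PSurf

variable {S : PSurf L} {x : Subalgebra ℂ L} {E : DVal L}

theorem R06_sn_zero {Λ : Type} [AddCommGroup Λ] : sn (0 : Λ) 0 = 0 := rfl

theorem bClDiv (hx : x ∈ S.pts) (hE : IsOrd x E) (f : L) (hf : f ≠ 0) :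
    clOf (S.bPrm E) (S.bCls x E) (fun ν => ν.ord f) = 0 := by
  rw [bcl hx hE (isDiv_ord S.finDiv hf), mul_ord hx hE hf]
  have h1 : S.cl (fun ν => ν.ord f) = 0 := S.cl_div f hf
  rw [h1, sub_self, R06_sn_zero]

theorem bExDiv (hx : x ∈ S.pts) (hE : IsOrd x E) (D : DVal L → ℤ) (hD : IsDiv (S.bPrm E) D)
    (h : clOf (S.bPrm E) (S.bCls x E) D = 0) :
    ∃ f : L, f ≠ 0 ∧ ∀ ν ∈ S.bPrm E, ν.ord f = D ν := by
  have hD' := isDiv_bPrm.1 hD
  rw [bcl hx hE hD', ← R06_sn_zero] at h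
  obtain ⟨h1, h2⟩ := sn_inj h
  obtain ⟨f, hf, h3⟩ := S.ex_div D hD' h1
  refine ⟨f, hf, ?_⟩
  intro ν hν
  rcases hν with rfl | hν
  · rw [← mul_ord hx hE hf, mul_congr (D' := D) (fun ν hν => h3 ν hν)]
    omega
  · exact h3 ν hν

theorem bSurj (hx : x ∈ S.pts) (hE : IsOrd x E) (α : S.Λ × ℤ) :
    ∃ D, IsDiv (S.bPrm E) D ∧ clOf (S.bPrm E) (S.bCls x E) D = α := by
  classical
  obtain ⟨u, j, rfl⟩ := exists_sn α
  obtain ⟨D0, hD0, hcl⟩ := S.cl_surj u
  have hcong : ∀ ν ∈ S.prm, D0 ν = (fun ν => if ν = E then j + S.mul x E D0 else D0 ν) ν := by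
    intro ν hν
    have h : ν ≠ E := by
      rintro rfl
      exact notMem hx hE hν
    show D0 ν = if ν = E then j + S.mul x E D0 else D0 ν
    rw [if_neg h]
  have hD : IsDiv S.prm (fun ν => if ν = E then j + S.mul x E D0 else D0 ν) := hD0.congr hcong
  refine ⟨fun ν => if ν = E then j + S.mul x E D0 else D0 ν, isDiv_bPrm.2 hD, ?_⟩
  rw [bcl hx hE hD]
  have h1 : S.cl (fun ν => if ν = E then j + S.mul x E D0 else D0 ν) = u := by
    rw [← hcl]
    exact (clOf_congr hcong).symm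
  have h2 : S.mul x E (fun ν => if ν = E then j + S.mul x E D0 else D0 ν) = S.mul x E D0 :=
    (mul_congr hcong).symm
  rw [h1, h2, if_pos rfl, add_sub_cancel_right]

theorem bASq : 1 ≤ S.bForm S.bA S.bA := by
  unfold bA
  rw [bForm_sn]
  have := S.A_sq
  simp only [map_smul, LinearMap.smul_apply, smul_eq_mul]
  omega

theorem bSymm (a b : S.Λ × ℤ) : S.bForm a b = S.bForm b a := by
  change S.form a.1 b.1 - a.2 * b.2 = S.form b.1 a.1 - b.2 * a.2
  rw [S.symm, mul_comm]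

theorem bParity (D : S.Λ × ℤ) : Even (S.bForm D D + S.bForm S.bK D) := by
  change Even (S.form D.1 D.1 - D.2 * D.2 + (S.form S.K D.1 - 1 * D.2))
  have h1 := S.parity D.1
  have h2 : Even (D.2 * (D.2 + 1)) := Int.even_mul_succ_self D.2
  have h3 : S.form D.1 D.1 - D.2 * D.2 + (S.form S.K D.1 - 1 * D.2) =
      (S.form D.1 D.1 + S.form S.K D.1) - D.2 * (D.2 + 1) := by ring
  rw [h3]
  exact h1.sub h2

end PSurf

end Pool.Agent.LibLB
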