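import Pool.Agent.LibLB.R09
import Pool.Agent.LibLB.R06

/-! [KB R10] The Riemann-Roch inequality on the blow-up.

Proof. Let `D, D'` be the two divisors, `u = S.cl D`, `j = D E - S.mul x E D`, so `cl' D = sn u j` and
(`bcl`, `Kc_succ`, `sn_sub`, `sn_inj`) `S.cl D' = Kc - u`, `D' E = S.mul x E D' + (1 - j)`. `S.rr D D'`:
`2 + frm u (u - Kc) ≤ 2 (h0 D + h0 D')` on `S.prm`. The left side on the blow-up is
`2 + frm u (u - Kc) - j (j - 1)` (`frm_sn`). If `j ≥ 1`: `h0' D = h0 D` (`sec_b_eq`),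
`h0 D' ≤ h0' D' + m (m + 1) / 2` with `m = j - 1` (`h0_jets`), and `2 * (m (m + 1) / 2) = j (j - 1)`.
If `j = 0`: both equal. If `j ≤ -1`: `m = -j`, `h0 D ≤ h0' D + m (m + 1) / 2`, `h0' D' = h0 D'`.
(`exists_loc`, `mul_eq` to pass from `S.mul` to `E.ord g`; `Nat` division:
`Nat.even_mul_succ_self`, `Nat.div_mul_cancel`.) -/

set_option autoImplicit false

open Pool.Agent.LibGMM Pool.Agent.LibK Pool.Agent.LibKB

namespace Pool.Agent.LibLB

variable {L : Type} [Field L] [Algebra ℂ L]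

namespace PSurf

variable {S : PSurf L} {x : Subalgebra ℂ L} {E : DVal L}

/-- The number of sections of `π* D + j E` for `j ≥ 0` and `j ≤ 0` at once. -/
private theorem R10_h0 (hx : x ∈ S.pts) (hE : IsOrd x E) (D : DVal L → ℤ)
    (hD : IsDiv S.prm D) (j : ℤ) (hj : D E = S.mul x E D + j) :
    (0 ≤ j → h0 S.prm D = h0 (S.bPrm E) D) ∧
    (∀ m : ℕ, j = -m → 2 * (h0 S.prm D : ℤ) ≤ 2 * (h0 (S.bPrm E) D : ℤ) + m * (m + 1)) := by
  obtain ⟨g, hg⟩ := (S.pt hx).exists_loc hD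
  rw [mul_eq hx hE hg] at hj
  constructor
  · intro h
    unfold h0
    rw [sec_b_eq hx hE hg (by omega)]
  · intro m hm
    have h1 := h0_jets hx hE hD hg m (by omega)
    have h2 : m * (m + 1) / 2 * 2 = m * (m + 1) :=
      Nat.div_mul_cancel (Nat.even_mul_succ_self m).two_dvd
    have h3 : 2 * h0 S.prm D ≤ 2 * h0 (S.bPrm E) D + m * (m + 1) := by omega
    exact_mod_cast h3

theorem bRR (hx : x ∈ S.pts) (hE : IsOrd x E) (D D' : DVal L → ℤ) (hD : IsDiv (S.bPrm E) D)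
    (hD' : IsDiv (S.bPrm E) D') (h : clOf (S.bPrm E) (S.bCls x E) D' =
      S.bK - clOf (S.bPrm E) (S.bCls x E) D) :
    2 * S.chi0 + S.bForm (clOf (S.bPrm E) (S.bCls x E) D)
        (clOf (S.bPrm E) (S.bCls x E) D - S.bK) ≤
      2 * ((h0 (S.bPrm E) D : ℤ) + h0 (S.bPrm E) D') := by
  rw [isDiv_bPrm] at hD hD'
  rw [bcl hx hE hD, bcl hx hE hD', bK, sn_sub] at h
  obtain ⟨h1, h2⟩ := sn_inj h
  rw [bcl hx hE hD, bK, sn_sub, bForm_sn]
  have hrr := S.rr D D' hD hD' h1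
  obtain ⟨j, hj⟩ : ∃ j : ℤ, j = D E - S.mul x E D := ⟨_, rfl⟩
  rw [← hj] at h2 ⊢
  obtain ⟨ha1, ha2⟩ := R10_h0 hx hE D hD j (by omega)
  obtain ⟨hb1, hb2⟩ := R10_h0 hx hE D' hD' (1 - j) (by omega)
  change 2 * S.chi0 + S.form (S.cl D) (S.cl D - S.K) ≤ _ at hrr
  rcases le_or_gt 1 j with h3 | h3
  · have h4 := ha1 (by omega)
    obtain ⟨m, hm⟩ : ∃ m : ℕ, j = m + 1 := ⟨(j - 1).toNat, by omega⟩
    have h5 := hb2 m (by omega)
    rw [← h4]
    have h6 : j * (j - 1) = m * (m + 1) := by rw [hm]; ring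
    linarith
  · have h4 := hb1 (by omega)
    obtain ⟨m, hm⟩ : ∃ m : ℕ, j = -m := ⟨(-j).toNat, by omega⟩
    have h5 := ha2 m hm
    rw [← h4]
    have h6 : j * (j - 1) = m * (m + 1) := by rw [hm]; ring
    linarith

theorem bChi0 (hS : S.Reg) (hx : x ∈ S.pts) (hE : IsOrd x E) (D : DVal L → ℤ)
    (hD : IsDiv (S.bPrm E) D) (h : clOf (S.bPrm E) (S.bCls x E) D = S.bK) : S.chi0 = 1 + h0 (S.bPrm E) D := by
  rw [isDiv_bPrm] at hD
  rw [bcl hx hE hD, bK] at h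
  obtain ⟨h1, h2⟩ := sn_inj h
  rw [← (R10_h0 hx hE D hD 1 (by omega)).1 (by norm_num)]
  exact hS.chi0_eq D hD h1

end PSurf

end Pool.Agent.LibLB
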