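import Pool.Agent.LibLB.R13

/-! [KB R14] Separation of points on the blow-up: the section must not vanish at an old point `y`.

`sep_old_old`: `f1` from `S.sep DA .. z y` (`Gen y f1`, `¬ Gen z f1`), `f2` from `S.sep DA .. x y`
(`Gen y f2`, `¬ Gen x f2`). `Ge E 1 (f2 * g)` (`Pt.pos_of_not_gen`), `f1 * g ∈ x` (`Pt.germ_mem`), so
`BA.sec_mem` applies to `f1 * f2 / u`; `BA.gen_old` at `y`, `BA.not_gen_old` at `z`.
`sep_over_old`: `f2` as before, the section `f2 * f2 / u`: `Ge E 2 (f2 * g * (f2 * g))`; at `z`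
(`Over x z`: `⟨a, b, h, h'⟩`): `Ge F 1 (f2 * g * (f2 * g) / a)` by `ge_div_pow` (`k = l = 1`), so it is not a
generator by `BA.gen_over`. -/

set_option autoImplicit false

open Pool.Agent.LibGMM Pool.Agent.LibK Pool.Agent.LibKB

namespace Pool.Agent.LibLB

variable {L : Type} [Field L] [Algebra ℂ L]

namespace PSurf

variable {S : PSurf L} {x y z : Subalgebra ℂ L} {E : DVal L} {D DA : DVal L → ℤ} {u g : L}

/-- The product of a germ of a section and a section vanishing at `x`. -/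
theorem BA.ge_one (H : BA S x E D DA u g) (hx : x ∈ S.pts) (hE : IsOrd x E) {f1 f2 : L}
    (h1 : f1 ∈ sec S.prm DA) (h2 : f2 ∈ sec S.prm DA) (h : ¬ Gen S.prm x DA f2) :
    Ge E 1 (f1 * g * (f2 * g)) := by
  have e1 : Ge E 0 (f1 * g) := fun _ => hE.le_ring ((S.pt hx).germ_mem H.loc h1)
  have e2 : Ge E 1 (f2 * g) := (S.pt hx).pos_of_not_gen hE H.loc h2 h
  have e3 := e1.mul e2
  rwa [zero_add] at e3

theorem sep_old_old (H : BA S x E D DA u g) (hx : x ∈ S.pts) (hE : IsOrd x E) (hz : z ∈ S.pts)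
    (hzx : z ≠ x) (hy : y ∈ S.pts) (hyx : y ≠ x) (hne : z ≠ y) :
    ∃ f, Gen (S.bPrm E) y D f ∧ ¬ Gen (S.bPrm E) z D f := by
  obtain ⟨f1, h1, h1'⟩ := S.sep DA H.isDiv H.cl z hz y hy hne
  obtain ⟨f2, h2, h2'⟩ := S.sep DA H.isDiv H.cl x hx y hy (Ne.symm hyx)
  have hs : f1 * f2 / u ∈ sec (S.bPrm E) D :=
    H.sec_mem h1.1 h2.1 (H.ge_one hx hE h1.1 h2.1 h2')
  exact ⟨f1 * f2 / u, H.gen_old hx hE hy hyx h1 h2 hs, H.not_gen_old h1.1 h2.1 h1'⟩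

theorem sep_over_old (H : BA S x E D DA u g) (hx : x ∈ S.pts) (hE : IsOrd x E) (hz : Over x z)
    (hy : y ∈ S.pts) (hyx : y ≠ x) :
    ∃ f, Gen (S.bPrm E) y D f ∧ ¬ Gen (S.bPrm E) z D f := by
  obtain ⟨f2, h2, h2'⟩ := S.sep DA H.isDiv H.cl x hx y hy (Ne.symm hyx)
  have hs : f2 * f2 / u ∈ sec (S.bPrm E) D :=
    H.sec_mem h2.1 h2.1 (H.ge_one hx hE h2.1 h2.1 h2')
  refine ⟨f2 * f2 / u, H.gen_old hx hE hy hyx h2 h2 hs, ?_⟩
  obtain ⟨a, b, h'⟩ := hz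
  have h := h'.rlr
  obtain ⟨F, hF⟩ := h'.rlr'.exists_ord
  have h0 : f2 * f2 ≠ 0 := mul_ne_zero h2.2.1 h2.2.1
  rw [H.gen_over hx hE h h' hF hs h0]
  have e1 : Ge E 1 (f2 * g) := (S.pt hx).pos_of_not_gen hE H.loc h2.1 h2'
  have e2 : Ge E (((1 : ℕ) : ℤ) + ((1 : ℕ) : ℤ)) (f2 * g * (f2 * g)) := by
    have e3 := e1.mul e1
    exact_mod_cast e3
  have hm : f2 * g ∈ x := (S.pt hx).germ_mem H.loc h2.1
  have e4 := ge_div_pow h h' hE hF 1 1 (mul_mem hm hm) e2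
  rw [pow_one] at e4
  have hg : g ≠ 0 := H.loc.1
  have ha : a ≠ 0 := (hE.ord_a h).1
  have h5 : f2 * g * (f2 * g) / a ≠ 0 :=
    div_ne_zero (mul_ne_zero (mul_ne_zero h2.2.1 hg) (mul_ne_zero h2.2.1 hg)) ha
  have h6 := e4 h5
  intro h7
  rw [h7] at h6
  norm_num at h6

end PSurf

end Pool.Agent.LibLB
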