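import Pool.Agent.LibLB.R13

/-! [KB R15] Separation of points on the blow-up: the section vanishes at the old point `z` and not
at the point `y` over `x`.

Proof. `Over x y`: `⟨a, b, h, h'⟩`, `F` the order function of `y` (`RLR.exists_ord h'`). `f1` from
`S.sep DA .. z x` (`Gen x f1`, `¬ Gen z f1`), so `E.ord (f1 * g) = 0` (`Pt.gen_iff`). `f2 ∈ sec DA` from
`S.jet` with `z := a` (`a ∈ x`: `IsOrd.ord_a`): `Ge E 2 (f2 * g - a)`. `BA.sec_mem`:
`E.ord (f2 * g) = 1`. At `y`: `f1 * g * (f2 * g) / a = (f1 * g) * (f2 * g / a)`; `F.ord (f1 * g) = 0`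
(`ord_eq_zero_of_unit`: `f1 * g` is a unit of `x` (`IsOrd.inv_mem`), `x ≤ y ≤ F.ring`), and
`F.ord (f2 * g / a) = 0` (`unit_div`). `BA.gen_over`, `BA.not_gen_old`. -/

set_option autoImplicit false

open Pool.Agent.LibGMM Pool.Agent.LibK Pool.Agent.LibKB

namespace Pool.Agent.LibLB

variable {L : Type} [Field L] [Algebra ℂ L]

namespace PSurf

variable {S : PSurf L} {x y z : Subalgebra ℂ L} {E : DVal L} {D DA : DVal L → ℤ} {u g : L}

theorem sep_old_over (H : BA S x E D DA u g) (hx : x ∈ S.pts) (hE : IsOrd x E) (hz : z ∈ S.pts)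
    (hzx : z ≠ x) (hy : Over x y) :
    ∃ f, Gen (S.bPrm E) y D f ∧ ¬ Gen (S.bPrm E) z D f := by
  obtain ⟨a, b, h'⟩ := hy
  have h := h'.rlr
  obtain ⟨F, hF⟩ := h'.rlr'.exists_ord
  obtain ⟨ha0, ha1, hax⟩ := hE.ord_a h
  obtain ⟨f1, h1, h1'⟩ := S.sep DA H.isDiv H.cl z hz x hx hzx
  obtain ⟨f2, h2, h2'⟩ := S.jet DA H.isDiv H.cl x hx E hE g H.loc a hax
  have hg : g ≠ 0 := H.loc.1
  have hm1 : f1 * g ∈ x := (S.pt hx).germ_mem H.loc h1.1
  have hm2 : f2 * g ∈ x := (S.pt hx).germ_mem H.loc h2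
  have hf1g : f1 * g ≠ 0 := mul_ne_zero h1.2.1 hg
  have ho1 : E.ord (f1 * g) = 0 := ((S.pt hx).gen_iff hE H.loc h1.1 h1.2.1).1 h1
  obtain ⟨h3, h4, h5⟩ := unit_div h h' hE hF hm2 h2'
  have hf2 : f2 ≠ 0 := left_ne_zero_of_mul h3
  have ho2 : E.ord (f2 * g) = 1 := by
    have h6 : Ge E (E.ord a + 1) (f2 * g - a) := by
      rw [ha1]
      exact h2'
    have h7 := (ord_add_of_ge E ha0 h6).2
    rw [add_sub_cancel] at h7
    rw [h7, ha1]
  have hs : f1 * f2 / u ∈ sec (S.bPrm E) D := by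
    refine H.sec_mem h1.1 h2 fun _ => ?_
    rw [E.ord_mul _ _ hf1g h3, ho1, ho2]
    norm_num
  refine ⟨f1 * f2 / u, ?_, H.not_gen_old h1.1 h2 h1'⟩
  rw [H.gen_over hx hE h h' hF hs (mul_ne_zero h1.2.1 hf2)]
  have h8 : f1 * g * (f2 * g) / a = f1 * g * (f2 * g / a) := by ring
  have h9 : F.ord (f1 * g) = 0 := ord_eq_zero_of_unit hm1 hf1g (hE.inv_mem hm1 hf1g ho1)
    (le_trans (h.over_le h') hF.le_ring)
  rw [h8, F.ord_mul _ _ hf1g (div_ne_zero h3 ha0), h9, h5]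
  norm_num

end PSurf

end Pool.Agent.LibLB
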