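import Pool.Agent.LibLB.R13

/-! [KB R18] Jets of sections of `bA` at an old point `y ≠ x`.

Proof. Let `e` be a local equation of `DA` at `y` (on `S.prm`). `f2 ∈ sec DA` with `Gen y f2`,
`¬ Gen x f2` (`S.sep`). `G` is a local equation of `D` at `y` on the blow-up; `e ^ 2 * u` is another one
(`BA.eq`, primes through `y` are in `S.prm` by `not_through`), so `ε := G / (e ^ 2 * u)` is a unit of `y`
(`Pt.loc_div_mem` for `bPt` in both directions), and `w := f2 * e` is a unit of `y` (`Pt.gen_iff`,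
`IsOrd.inv_mem`). `S.jet` at `y` with `z / (w * ε) ∈ y`: `f1 ∈ sec DA`,
`Ge F 2 (f1 * e - z / (w * ε))`. Then `f1 * f2 / u ∈ sec (S.bPrm E) D` (`BA.sec_mem`:
`f1 * g ∈ x`, `Ge E 1 (f2 * g)`) and `(f1 * f2 / u) * G - z = (f1 * e - z / (w * ε)) * (w * ε)`. -/

set_option autoImplicit false

open Pool.Agent.LibGMM Pool.Agent.LibK Pool.Agent.LibKB

namespace Pool.Agent.LibLB

variable {L : Type} [Field L] [Algebra ℂ L]

namespace PSurf

variable {S : PSurf L} {x y : Subalgebra ℂ L} {E F : DVal L} {D DA : DVal L → ℤ} {u g : L}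

theorem jet_old (H : BA S x E D DA u g) (hx : x ∈ S.pts) (hE : IsOrd x E) (hy : y ∈ S.pts)
    (hyx : y ≠ x) (hF : IsOrd y F) (G : L) (hG : LocEqn (S.bPrm E) y D G) (z : L) (hz : z ∈ y) :
    ∃ f ∈ sec (S.bPrm E) D, Ge F 2 (f * G - z) := by
  obtain ⟨e, he⟩ := (S.pt hy).exists_loc H.isDiv
  obtain ⟨f2, hf2, hf2'⟩ := S.sep DA H.isDiv H.cl x hx y hy hyx.symm
  have hP : Pt (S.bPrm E) y := bPt hx hE (Or.inl ⟨hy, hyx⟩)
  have he2 : LocEqn (S.bPrm E) y D (e ^ 2 * u) := by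
    refine ⟨mul_ne_zero (pow_ne_zero 2 he.1) H.u0, fun ν hν hyν => ?_⟩
    rcases hν with rfl | hν
    · exact absurd hyν (not_through hx hE hy hyx)
    · rw [ν.ord_mul _ _ (pow_ne_zero 2 he.1) H.u0, ord_pow ν he.1, he.2 ν hν hyν, H.eq ν hν]
      norm_num
  set ε : L := G / (e ^ 2 * u) with hε
  have hε0 : ε ≠ 0 := div_ne_zero hG.1 he2.1
  have hεy : ε ∈ y := hP.loc_div_mem hG he2
  have hεy' : ε⁻¹ ∈ y := by
    rw [hε, inv_div]
    exact hP.loc_div_mem he2 hG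
  set w : L := f2 * e with hw
  have hw0 : w ≠ 0 := mul_ne_zero hf2.2.1 he.1
  have hwy : w ∈ y := (S.pt hy).germ_mem he hf2.1
  have hwF : F.ord w = 0 := (S.pt hy).ord_zero_of_gen he hf2 hF.le_ring
  have hwy' : w⁻¹ ∈ y := hF.inv_mem hwy hw0 hwF
  have hzm : z / (w * ε) ∈ y := by
    rw [div_eq_mul_inv, mul_inv]
    exact y.mul_mem hz (y.mul_mem hwy' hεy')
  obtain ⟨f1, hf1, h1⟩ := S.jet DA H.isDiv H.cl y hy F hF e he _ hzm
  have hsec : f1 * f2 / u ∈ sec (S.bPrm E) D := by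
    refine H.sec_mem hf1 hf2.1 ?_
    have h2 : Ge E 0 (f1 * g) := fun _ => hE.le_ring ((S.pt hx).germ_mem H.loc hf1)
    have h3 : Ge E 1 (f2 * g) := (S.pt hx).pos_of_not_gen hE H.loc hf2.1 hf2'
    exact (h2.mul h3).mono (by norm_num)
  refine ⟨f1 * f2 / u, hsec, ?_⟩
  have hu0 := H.u0
  have he0 := he.1
  have hkey : f1 * f2 / u * G - z = (f1 * e - z / (w * ε)) * (w * ε) := by
    have h4 : G = ε * (e ^ 2 * u) := by
      rw [hε]
      field_simp
    rw [sub_mul, div_mul_cancel₀ _ (mul_ne_zero hw0 hε0), h4, hw]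
    field_simp
  rw [hkey]
  have h5 : Ge F 0 (w * ε) := fun _ => hF.le_ring (y.mul_mem hwy hεy)
  exact (h1.mul h5).mono (by norm_num)

end PSurf

end Pool.Agent.LibLB
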