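import Pool.Agent.LibLB.R13

/-! [KB R19] Jets of sections of `bA` at a point `y` over `x`.

Proof. `Over x y`: `⟨a, b, h, h'⟩`. `BA.loc_over`: `g ^ 2 * u / a` is a local equation of `D` at `y`, so
`ε := G / (g ^ 2 * u / a)` is a unit of `y` (`Pt.loc_div_mem` twice). Let `J` be the set of `z ∈ y` such
that there is `f ∈ sec (S.bPrm E) D` with `Ge F 2 (f * (g ^ 2 * u / a) - z)`: a complex subspace, closed
under changing `z` by an element of `y` of order `≥ 2`. It suffices that `J = y` (apply it to `z / ε` and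
multiply by `ε`). `S.jet`: `s0, s1, s2 ∈ sec DA` with `s0 * g ≡ 1`, `s1 * g ≡ a`, `s2 * g ≡ b` modulo
`Ge E 2`. The sections `s1 * s0 / u`, `s1 * s1 / u`, `s2 * s0 / u` (`BA.sec_mem`) have the germs
`(s1 g)(s0 g) / a`, `(s1 g)^2 / a`, `(s2 g)(s0 g) / a`. With `s1 g = a + r1`, `s2 g = b + r2`,
`s0 g = 1 + r0`, `Ge E 2 ri`, `ri / a = a * (ri / a ^ 2)`, `ri / a ^ 2 ∈ y` (`div_pow_mem`), `ri / a ^ 2 ≡
κi ∈ ℂ` (`const_of_mem`): modulo `Ge F 2` the germs are `1 + κ1 a`, `a`, `b / a + κ2 a`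
(`Ge F 2 r0` because `r0 = a ^ 2 * (r0 / a ^ 2)`). So `1, a, b / a ∈ J`. Every `z ∈ y` is
`c0 + c1 a + c2 (b / a)` modulo `Ge F 2` (`IsOrd.exists_jet hF h' 2`: the polynomial `P` has degree `< 2`;
`MvPolynomial.aeval` of `P = ∑ coefficient`, or use `MvPolynomial` induction on monomials of degree
`< 2`: `1, X 0, X 1`). -/

set_option autoImplicit false

open Pool.Agent.LibGMM Pool.Agent.LibK Pool.Agent.LibKB

namespace Pool.Agent.LibLB

variable {L : Type} [Field L] [Algebra ℂ L]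

private theorem r19_ev_mem (J : Submodule ℂ L) (v w : L) (h1 : (1 : L) ∈ J) (hv : v ∈ J)
    (hw : w ∈ J) (P : MvPolynomial (Fin 2) ℂ) (hP : ∀ d ∈ P.support, d.degree < 2) :
    ev v w P ∈ J := by
  rw [P.as_sum, map_sum]
  refine J.sum_mem fun d hd => ?_
  have h2 := hP d hd
  rw [Finsupp.degree_eq_sum, Fin.sum_univ_two] at h2
  have h3 : ev v w (MvPolynomial.monomial d (MvPolynomial.coeff d P)) =
      MvPolynomial.coeff d P • (v ^ d 0 * w ^ d 1) := by
    rw [MvPolynomial.aeval_monomial, Finsupp.prod_fintype _ _ (fun i => pow_zero _),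
      Fin.prod_univ_two, Algebra.smul_def]
    rfl
  rw [h3]
  refine J.smul_mem _ ?_
  rcases Nat.eq_zero_or_pos (d 0) with h4 | h4
  · rcases Nat.eq_zero_or_pos (d 1) with h5 | h5
    · rw [h4, h5, pow_zero, pow_zero, one_mul]
      exact h1
    · have h6 : d 1 = 1 := by omega
      rw [h4, h6, pow_zero, pow_one, one_mul]
      exact hw
  · have h6 : d 0 = 1 := by omega
    have h7 : d 1 = 0 := by omega
    rw [h6, h7, pow_zero, pow_one, mul_one]
    exact hv

namespace PSurf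

variable {S : PSurf L} {x y : Subalgebra ℂ L} {E F : DVal L} {D DA : DVal L → ℤ} {u g : L}

theorem jet_over (H : BA S x E D DA u g) (hx : x ∈ S.pts) (hE : IsOrd x E) (hy : Over x y)
    (hF : IsOrd y F) (G : L) (hG : LocEqn (S.bPrm E) y D G) (z : L) (hz : z ∈ y) :
    ∃ f ∈ sec (S.bPrm E) D, Ge F 2 (f * G - z) := by
  have hP : Pt (S.bPrm E) y := bPt hx hE (Or.inr hy)
  obtain ⟨a, b, h'⟩ := hy
  have h := h'.rlr
  have hq : LocEqn (S.bPrm E) y D (g ^ 2 * u / a) := H.loc_over hx hE h h'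
  obtain ⟨ha0, ha1, hax⟩ := hE.ord_a h
  obtain ⟨hb0, hb1, hbx⟩ := hE.ord_b h
  obtain ⟨_, haF, hay⟩ := hF.ord_a h'.rlr'
  obtain ⟨hba0, hbaF, hbay⟩ := hF.ord_b h'.rlr'
  have hu0 := H.u0
  have hg0 := H.loc.1
  have hPx := S.pt hx
  set q : L := g ^ 2 * u / a with hqdef
  let J : Submodule ℂ L :=
    { carrier := {z | ∃ f ∈ sec (S.bPrm E) D, Ge F 2 (f * q - z)}
      zero_mem' := ⟨0, Submodule.zero_mem _, by
        rw [zero_mul, sub_zero]
        exact fun h0 => absurd rfl h0⟩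
      add_mem' := by
        rintro z1 z2 ⟨t1, ht1, hz1⟩ ⟨t2, ht2, hz2⟩
        refine ⟨t1 + t2, Submodule.add_mem _ ht1 ht2, ?_⟩
        have : (t1 + t2) * q - (z1 + z2) = (t1 * q - z1) + (t2 * q - z2) := by ring
        rw [this]
        exact hz1.add hz2
      smul_mem' := by
        rintro c z1 ⟨t1, ht1, hz1⟩
        refine ⟨c • t1, Submodule.smul_mem _ _ ht1, ?_⟩
        have : c • t1 * q - c • z1 = c • (t1 * q - z1) := by
          rw [smul_sub, smul_mul_assoc]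
        rw [this]
        exact hz1.smul c }
  have hJ2 : ∀ v, Ge F 2 v → v ∈ J := fun v hv => ⟨0, Submodule.zero_mem _, by
    rw [zero_mul, zero_sub]
    exact hv.neg⟩
  have hJmk : ∀ f v : L, f ∈ sec (S.bPrm E) D → Ge F 2 (f * q - v) → v ∈ J :=
    fun f v hf hv => ⟨f, hf, hv⟩
  -- the sections of `DA`
  obtain ⟨s0, hs0, j0⟩ := S.jet DA H.isDiv H.cl x hx E hE g H.loc 1 x.one_mem
  obtain ⟨s1, hs1, j1⟩ := S.jet DA H.isDiv H.cl x hx E hE g H.loc a hax
  obtain ⟨s2, hs2, j2⟩ := S.jet DA H.isDiv H.cl x hx E hE g H.loc b hbx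
  have m0 : s0 * g - 1 ∈ x := x.sub_mem (hPx.germ_mem H.loc hs0) x.one_mem
  have m1 : s1 * g - a ∈ x := x.sub_mem (hPx.germ_mem H.loc hs1) hax
  have m2 : s2 * g - b ∈ x := x.sub_mem (hPx.germ_mem H.loc hs2) hbx
  have k0 : (s0 * g - 1) / a ^ 2 ∈ y := div_pow_mem h h' hE 2 m0 (by exact_mod_cast j0)
  have k1 : (s1 * g - a) / a ^ 2 ∈ y := div_pow_mem h h' hE 2 m1 (by exact_mod_cast j1)
  have k2 : (s2 * g - b) / a ^ 2 ∈ y := div_pow_mem h h' hE 2 m2 (by exact_mod_cast j2)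
  obtain ⟨c1, hc1⟩ := const_of_mem hF k1
  obtain ⟨c2, hc2⟩ := const_of_mem hF k2
  have Ga : Ge F 1 a := fun _ => haF.ge
  have Ga2 : Ge F 2 (a ^ 2) := by
    rw [pow_two]
    exact (Ga.mul Ga).mono (by norm_num)
  have G0 : ∀ v ∈ y, Ge F 0 v := fun v hv _ => hF.le_ring hv
  set r0 : L := s0 * g - 1 with hr0
  set r1 : L := s1 * g - a with hr1
  set r2 : L := s2 * g - b with hr2
  have R0 : Ge F 2 r0 := by
    have : r0 = a ^ 2 * (r0 / a ^ 2) := by field_simp
    rw [this]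
    exact (Ga2.mul (G0 _ k0)).mono (by norm_num)
  have R1 : Ge F 2 r1 := by
    have : r1 = a ^ 2 * (r1 / a ^ 2) := by field_simp
    rw [this]
    exact (Ga2.mul (G0 _ k1)).mono (by norm_num)
  have R1a : Ge F 1 (r1 / a) := by
    have : r1 / a = a * (r1 / a ^ 2) := by field_simp
    rw [this]
    exact (Ga.mul (G0 _ k1)).mono (by norm_num)
  have R2a : Ge F 1 (r2 / a) := by
    have : r2 / a = a * (r2 / a ^ 2) := by field_simp
    rw [this]
    exact (Ga.mul (G0 _ k2)).mono (by norm_num)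
  have C1 : Ge F 2 (r1 / a - c1 • a) := by
    have : r1 / a - c1 • a = a * (r1 / a ^ 2 - algebraMap ℂ L c1) := by
      rw [Algebra.smul_def]
      field_simp
    rw [this]
    exact (Ga.mul hc1).mono (by norm_num)
  have C2 : Ge F 2 (r2 / a - c2 • a) := by
    have : r2 / a - c2 • a = a * (r2 / a ^ 2 - algebraMap ℂ L c2) := by
      rw [Algebra.smul_def]
      field_simp
    rw [this]
    exact (Ga.mul hc2).mono (by norm_num)
  have E0 : Ge E 0 (s0 * g) := fun _ => hE.le_ring (hPx.germ_mem H.loc hs0)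
  have E1 : Ge E 1 (s1 * g) := by
    have h1 : s1 * g = a + r1 := by rw [hr1]; ring
    rw [h1]
    exact Ge.add (fun _ => ha1.ge) (j1.mono (by norm_num))
  have E2 : Ge E 1 (s2 * g) := by
    have h1 : s2 * g = b + r2 := by rw [hr2]; ring
    rw [h1]
    exact Ge.add (fun _ => hb1.ge) (j2.mono (by norm_num))
  have sec10 : s1 * s0 / u ∈ sec (S.bPrm E) D :=
    H.sec_mem hs1 hs0 ((E1.mul E0).mono (by norm_num))
  have sec11 : s1 * s1 / u ∈ sec (S.bPrm E) D :=
    H.sec_mem hs1 hs1 ((E1.mul E1).mono (by norm_num))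
  have sec20 : s2 * s0 / u ∈ sec (S.bPrm E) D :=
    H.sec_mem hs2 hs0 ((E2.mul E0).mono (by norm_num))
  have haJ : a ∈ J := by
    refine hJmk _ a sec11 ?_
    have : s1 * s1 / u * q - a = r1 * (algebraMap ℂ L 2 + r1 / a) := by
      rw [hqdef, hr1, map_ofNat]
      field_simp
      ring
    rw [this]
    have h2 : Ge F 0 (algebraMap ℂ L 2 + r1 / a) :=
      (G0 _ (y.algebraMap_mem 2)).add (R1a.mono (by norm_num))
    exact (R1.mul h2).mono (by norm_num)
  have h1J : (1 : L) ∈ J := by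
    have h2 : 1 + c1 • a ∈ J := by
      refine hJmk _ _ sec10 ?_
      have : s1 * s0 / u * q - (1 + c1 • a) = (r1 / a - c1 • a) + r0 * (1 + r1 / a) := by
        rw [hqdef, hr1, hr0]
        field_simp
        ring
      rw [this]
      have h3 : Ge F 0 (1 + r1 / a) := (G0 _ y.one_mem).add (R1a.mono (by norm_num))
      exact C1.add ((R0.mul h3).mono (by norm_num))
    have h3 := J.sub_mem h2 (J.smul_mem c1 haJ)
    rwa [add_sub_cancel_right] at h3
  have hbJ : b / a ∈ J := by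
    have h2 : b / a + c2 • a ∈ J := by
      refine hJmk _ _ sec20 ?_
      have : s2 * s0 / u * q - (b / a + c2 • a) =
          (r2 / a - c2 • a) + r0 * (b / a + r2 / a) := by
        rw [hqdef, hr2, hr0]
        field_simp
        ring
      rw [this]
      have h3 : Ge F 0 (b / a + r2 / a) := (G0 _ hbay).add (R2a.mono (by norm_num))
      exact C2.add ((R0.mul h3).mono (by norm_num))
    have h3 := J.sub_mem h2 (J.smul_mem c2 haJ)
    rwa [add_sub_cancel_right] at h3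
  have hyJ : ∀ v ∈ y, v ∈ J := by
    intro v hv
    obtain ⟨P, hP1, hP2⟩ := hF.exists_jet h'.rlr' 2 hv
    have h2 := J.add_mem (hJ2 _ (by exact_mod_cast hP2))
      (r19_ev_mem J a (b / a) h1J haJ hbJ P hP1)
    rwa [sub_add_cancel] at h2
  -- conclusion
  set ε : L := G / q with hε
  have hε0 : ε ≠ 0 := div_ne_zero hG.1 hq.1
  have hεy : ε ∈ y := hP.loc_div_mem hG hq
  have hεy' : ε⁻¹ ∈ y := by
    rw [hε, inv_div]
    exact hP.loc_div_mem hq hG
  obtain ⟨f, hf, hf2⟩ := hyJ (z / ε) (by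
    rw [div_eq_mul_inv]
    exact y.mul_mem hz hεy')
  refine ⟨f, hf, ?_⟩
  have hkey : f * G - z = (f * q - z / ε) * ε := by
    rw [sub_mul, div_mul_cancel₀ _ hε0, hε]
    have := hq.1
    field_simp
  rw [hkey]
  exact (hf2.mul (G0 _ hεy)).mono (by norm_num)

end PSurf

end Pool.Agent.LibLB
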