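import Pool.Agent.LibLB.R07

/-! [KB R09] The number of sections of `π* D - m E`.

Proof. Let `V = (sec S.prm D).map (LinearMap.mulRight ℂ g)` (multiplication by `g` is injective, so
`finrank V = h0 S.prm D`, `Submodule.equivMapOfInjective`); `V ≤ x` by `Pt.germ_mem`; by `mem_sec_b`
`V ⊓ geSub E m` is the image of `sec (S.bPrm E) D`. `IsOrd.jet_count`, `IsOrd.jet_count'`. -/

set_option autoImplicit false

open Pool.Agent.LibGMM Pool.Agent.LibK Pool.Agent.LibKB

namespace Pool.Agent.LibLB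

variable {L : Type} [Field L] [Algebra ℂ L]

namespace PSurf

variable {S : PSurf L} {x y : Subalgebra ℂ L} {E : DVal L} {D : DVal L → ℤ} {g : L}

private theorem R09_inj (hg : g ≠ 0) : Function.Injective (LinearMap.mulRight ℂ g) := by
  intro u v h
  exact mul_right_cancel₀ hg h

private theorem R09_V (hg : g ≠ 0) (W : Submodule ℂ L) :
    Module.finrank ℂ (W.map (LinearMap.mulRight ℂ g)) = Module.finrank ℂ W :=
  (Submodule.equivMapOfInjective _ (R09_inj hg) W).finrank_eq.symm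

private theorem R09_inf (hg : LocEqn S.prm x D g) (m : ℕ) (hm : D E = E.ord g - m) :
    (sec S.prm D).map (LinearMap.mulRight ℂ g) ⊓ geSub E m =
      (sec (S.bPrm E) D).map (LinearMap.mulRight ℂ g) := by
  have h1 : E.ord g - D E = m := by omega
  ext z
  rw [Submodule.mem_inf, Submodule.mem_map, Submodule.mem_map]
  constructor
  · rintro ⟨⟨f, hf, rfl⟩, h2⟩
    refine ⟨f, ?_, rfl⟩
    rw [mem_sec_b hg, h1]
    exact ⟨hf, h2⟩
  · rintro ⟨f, hf, rfl⟩
    rw [mem_sec_b hg, h1] at hf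
    exact ⟨⟨f, hf.1, rfl⟩, hf.2⟩

private theorem R09_mem (hx : x ∈ S.pts) (hg : LocEqn S.prm x D g) :
    ∀ z ∈ (sec S.prm D).map (LinearMap.mulRight ℂ g), z ∈ x := by
  rintro z hz
  rw [Submodule.mem_map] at hz
  obtain ⟨f, hf, rfl⟩ := hz
  exact (S.pt hx).germ_mem hg hf

theorem h0_jets (hx : x ∈ S.pts) (hE : IsOrd x E) (hD : IsDiv S.prm D)
    (hg : LocEqn S.prm x D g) (m : ℕ) (hm : D E = E.ord g - m) :
    h0 S.prm D ≤ h0 (S.bPrm E) D + m * (m + 1) / 2 := by
  have hfin : Module.Finite ℂ (sec S.prm D) := S.finSec D hD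
  have hfin' : Module.Finite ℂ ((sec S.prm D).map (LinearMap.mulRight ℂ g)) :=
    Module.Finite.map _ _
  have h1 := hE.jet_count m ((sec S.prm D).map (LinearMap.mulRight ℂ g)) (R09_mem hx hg)
  rw [R09_inf hg m hm, R09_V hg.1, R09_V hg.1] at h1
  exact h1

theorem h0_jets' (hx : x ∈ S.pts) (hE : IsOrd x E) (hD : IsDiv S.prm D)
    (hg : LocEqn S.prm x D g) (m : ℕ) (hm : D E = E.ord g - m)
    (hs : ∀ z ∈ x, ∃ f ∈ sec S.prm D, Ge E m (f * g - z)) :
    h0 S.prm D = h0 (S.bPrm E) D + m * (m + 1) / 2 := by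
  have hfin : Module.Finite ℂ (sec S.prm D) := S.finSec D hD
  have hfin' : Module.Finite ℂ ((sec S.prm D).map (LinearMap.mulRight ℂ g)) :=
    Module.Finite.map _ _
  have h1 := hE.jet_count' m ((sec S.prm D).map (LinearMap.mulRight ℂ g)) (R09_mem hx hg) (by
    intro z hz
    obtain ⟨f, hf, h2⟩ := hs z hz
    exact ⟨f * g, ⟨f, hf, rfl⟩, h2⟩)
  rw [R09_inf hg m hm, R09_V hg.1, R09_V hg.1] at h1
  exact h1

end PSurf

end Pool.Agent.LibLB
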