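import Pool.Agent.LibLB.R20
import Pool.Agent.LibLB.R21
import Pool.Agent.LibLB.R09

/-! [KB R22] Serre vanishing on the blow-up.

Proof. `exists_sn`: `F' = sn F j`. `S.serre F` gives `k0`. Take `k0' = k0 + |j|`. For `k ≥ k0'`:
`m := (k - j).toNat`, `l := (k + j).toNat` (`≥ k0`), `exists_BM`: `S.cl D = (2 k) • A + F`; `S.serre` for `2 k`
and `D`: `2 h0(D) = 2 χ + (cl D) . (cl D - K)` on `S.prm` and `h0 D'' = 0` for `cl D'' = Kc - cl D`.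
`S.serre` for `l` and `DT` gives `t` with `Gen S.prm x DT t`. `surj_germs` and `h0_jets'`:
`h0 S.prm D = h0' D + m (m + 1) / 2`. `bcl`: `cl' D = sn (S.cl D) (-m)`, `bForm_sn`, ``sn_sub`:
`frm (cl' D) (cl' D - Kc') = frm (cl D) (cl D - Kc) - m (m + 1)`. Second part: `cl' D' = Kc' - cl' D`
gives `S.cl D' = Kc - S.cl D` and `D' E = S.mul x E D' + (1 + m) ≥ S.mul x E D'`, so
`h0' D' = h0 S.prm D'` (`sec_b_eq`), which is `0`. -/

set_option autoImplicit false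

open Pool.Agent.LibGMM Pool.Agent.LibK Pool.Agent.LibKB

namespace Pool.Agent.LibLB

variable {L : Type} [Field L] [Algebra ℂ L]

namespace PSurf

variable {S : PSurf L} {x : Subalgebra ℂ L} {E : DVal L}

theorem bSerre1 (hx : x ∈ S.pts) (hE : IsOrd x E) (F' : S.Λ × ℤ) :
    ∃ k0 : ℕ, ∀ k : ℕ, k0 ≤ k → ∀ D, IsDiv (S.bPrm E) D →
      clOf (S.bPrm E) (S.bCls x E) D = k • S.bA + F' →
      2 * (h0 (S.bPrm E) D : ℤ) = 2 * S.chi0 + S.bForm (clOf (S.bPrm E) (S.bCls x E) D)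
        (clOf (S.bPrm E) (S.bCls x E) D - S.bK) ∧
      ∀ D', IsDiv (S.bPrm E) D' → clOf (S.bPrm E) (S.bCls x E) D' =
        S.bK - clOf (S.bPrm E) (S.bCls x E) D → h0 (S.bPrm E) D' = 0 := by
  obtain ⟨F, j, rfl⟩ := exists_sn F'
  obtain ⟨k1, hk1⟩ := S.serre F
  refine ⟨k1 + j.natAbs, fun k hk D hD hcl => ?_⟩
  obtain ⟨m, hm⟩ : ∃ m : ℕ, (m : ℤ) = k - j := ⟨(k - j).toNat, by omega⟩
  obtain ⟨l, hl⟩ : ∃ l : ℕ, (l : ℤ) = k + j := ⟨(k + j).toNat, by omega⟩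
  obtain ⟨h1, DA, DT, u, g, H, h2⟩ := exists_BM hx hE hD k m l F j hm hl hcl
  obtain ⟨h3, h4, -⟩ := hk1 (2 * k) (by omega) D H.isDiv h1
  obtain ⟨-, -, h5⟩ := hk1 l (by omega) DT H.isDivT h2
  obtain ⟨t, ht⟩ := h5 x hx
  have h6 := h0_jets' hx hE H.isDiv H.loc m H.ex fun z hz =>
    surj_germs hx hE m H.isDivA H.clA H.isDivT H.u0 H.eq ht H.loc z hz
  have h7 : clOf (S.bPrm E) (S.bCls x E) D = sn (S.cl D) (-(m : ℤ)) := by
    rw [bcl hx hE H.isDiv, mul_eq hx hE H.loc, H.ex]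
    congr 1
    ring
  refine ⟨?_, ?_⟩
  · rw [h7, bK, sn_sub, bForm_sn]
    have h8 : 2 * (h0 S.prm D : ℤ) = 2 * S.chi0 + S.form (S.cl D) (S.cl D - S.K) := h3
    have h9 : 2 * (m * (m + 1) / 2) = m * (m + 1) :=
      Nat.mul_div_cancel' (Nat.even_mul_succ_self m).two_dvd
    have h10 : (2 : ℤ) * ((m * (m + 1) / 2 : ℕ) : ℤ) = m * (m + 1) := by exact_mod_cast h9
    rw [h6, Nat.cast_add] at h8
    linear_combination h8 - h10
  · intro D' hD' hcl'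
    have hD'' : IsDiv S.prm D' := isDiv_bPrm.1 hD'
    obtain ⟨g', hg'⟩ := (S.pt hx).exists_loc hD''
    rw [h7, bK, sn_sub, bcl hx hE hD'', mul_eq hx hE hg'] at hcl'
    obtain ⟨h8, h9⟩ := sn_inj hcl'
    unfold h0
    rw [sec_b_eq hx hE hg' (by omega)]
    exact h4 D' hD'' h8

end PSurf

end Pool.Agent.LibLB
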