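import Pool.Agent.LibLB.R11
import Pool.Agent.LibLB.R10
import Pool.Agent.LibLB.R14
import Pool.Agent.LibLB.R15
import Pool.Agent.LibLB.R16
import Pool.Agent.LibLB.R18
import Pool.Agent.LibLB.R19
import Pool.Agent.LibLB.R22
import Pool.Agent.LibLB.R23

/-!
THEOREM K+, part BLOW: the blow-up of a closed point of a `PSurf` is a `PSurf`.
-/

set_option autoImplicit false

open Pool.Agent.LibGMM Pool.Agent.LibK Pool.Agent.LibKB

namespace Pool.Agent.LibLB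

variable {L : Type} [Field L] [Algebra ℂ L]

namespace PSurf

section

variable {S : PSurf L} {x y : Subalgebra ℂ L} {E : DVal L}

theorem bPtsNe (S : PSurf L) {x : Subalgebra ℂ L} (hx : x ∈ S.pts) : (S.bPts x).Nonempty := by
  obtain ⟨a, b, h⟩ := S.coord x hx
  obtain ⟨y, hy⟩ := h.infinite_over.nonempty
  exact ⟨y, Or.inr hy⟩

theorem bSep (hx : x ∈ S.pts) (hE : IsOrd x E) (D : DVal L → ℤ) (hD : IsDiv (S.bPrm E) D)
    (h : clOf (S.bPrm E) (S.bCls x E) D = S.bA) (z : Subalgebra ℂ L) (hz : z ∈ S.bPts x)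
    (y : Subalgebra ℂ L) (hy : y ∈ S.bPts x) (hne : z ≠ y) :
    ∃ f, Gen (S.bPrm E) y D f ∧ ¬ Gen (S.bPrm E) z D f := by
  obtain ⟨DA, u, g, H⟩ := exists_BA hx hE hD h
  rcases hz with ⟨hz, hzx⟩ | hz <;> rcases hy with ⟨hy, hyx⟩ | hy
  · exact sep_old_old H hx hE hz hzx hy hyx hne
  · exact sep_old_over H hx hE hz hzx hy
  · exact sep_over_old H hx hE hz hy hyx
  · exact sep_over_over H hx hE hz hy hne

theorem bJet (hx : x ∈ S.pts) (hE : IsOrd x E) (D : DVal L → ℤ) (hD : IsDiv (S.bPrm E) D)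
    (h : clOf (S.bPrm E) (S.bCls x E) D = S.bA) (y : Subalgebra ℂ L) (hy : y ∈ S.bPts x)
    (F : DVal L) (hF : IsOrd y F) (G : L) (hG : LocEqn (S.bPrm E) y D G) (z : L) (hz : z ∈ y) :
    ∃ f ∈ sec (S.bPrm E) D, Ge F 2 (f * G - z) := by
  obtain ⟨DA, u, g, H⟩ := exists_BA hx hE hD h
  rcases hy with ⟨hy, hyx⟩ | hy
  · exact jet_old H hx hE hy hyx hF G hG z hz
  · exact jet_over H hx hE hy hF G hG z hz

theorem bSerre (hx : x ∈ S.pts) (hE : IsOrd x E) (F' : S.Λ × ℤ) :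
    ∃ k0 : ℕ, ∀ k : ℕ, k0 ≤ k → ∀ D, IsDiv (S.bPrm E) D →
      clOf (S.bPrm E) (S.bCls x E) D = k • S.bA + F' →
      2 * (h0 (S.bPrm E) D : ℤ) = 2 * S.chi0 + S.bForm (clOf (S.bPrm E) (S.bCls x E) D)
        (clOf (S.bPrm E) (S.bCls x E) D - S.bK) ∧
      (∀ D', IsDiv (S.bPrm E) D' → clOf (S.bPrm E) (S.bCls x E) D' =
        S.bK - clOf (S.bPrm E) (S.bCls x E) D → h0 (S.bPrm E) D' = 0) ∧
      ∀ y ∈ S.bPts x, ∃ f, Gen (S.bPrm E) y D f := by
  obtain ⟨F, j, rfl⟩ := exists_sn F'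
  obtain ⟨k1, hk1⟩ := bSerre1 hx hE (sn F j)
  obtain ⟨k2, hk2⟩ := S.serre F
  refine ⟨k1 + k2 + j.natAbs, fun k hk D hD hcl => ?_⟩
  obtain ⟨h1, h2⟩ := hk1 k (by omega) D hD hcl
  refine ⟨h1, h2, fun y hy => ?_⟩
  have hm : (((k - j).toNat : ℕ) : ℤ) = k - j := by omega
  have hl : (((k + j).toNat : ℕ) : ℤ) = k + j := by omega
  obtain ⟨_, DA, DT, u, g, H, hDT⟩ := exists_BM hx hE hD k _ _ F j hm hl hcl
  have h3 := (hk2 ((k + j).toNat) (by omega) DT H.isDivT hDT).2.2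
  rcases hy with ⟨hy, hyx⟩ | hy
  · obtain ⟨t, ht⟩ := h3 y hy
    exact bpf_old H hx hE hy hyx ht
  · obtain ⟨t, ht⟩ := h3 x hx
    exact bpf_over H hx hE hy ht

theorem bNum (hS : S.Reg) (D : S.Λ × ℤ) (h : ∀ F, S.bForm D F = 0) : ∃ n : ℕ, 0 < n ∧ n • D = 0 := by
  obtain ⟨u, j, rfl⟩ := exists_sn D
  have h1 : j = 0 := by
    have h2 := h (sn 0 1)
    rw [bForm_sn, map_zero] at h2
    linarith
  subst h1
  obtain ⟨n, hn, h3⟩ := hS.num u fun v => by
    have h2 := h (sn v 0)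
    rw [bForm_sn, zero_mul, sub_zero] at h2
    exact h2
  refine ⟨n, hn, ?_⟩
  rw [← natCast_zsmul, smul_sn, mul_zero, natCast_zsmul, h3]
  rfl

end

/-- The blow-up of the closed point `x`, with exceptional curve `E`. -/
noncomputable def blow (S : PSurf L) (x : Subalgebra ℂ L) (hx : x ∈ S.pts) (E : DVal L)
    (hE : IsOrd x E) : PSurf L where
  prm := S.bPrm E
  pts := S.bPts x
  Λ := S.Λ × ℤ
  form := S.bForm
  K := S.bK
  cls := S.bCls x E
  A := S.bA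
  chi0 := S.chi0
  dim := S.dim
  symm := bSymm
  parity := bParity
  ptsNe := S.bPtsNe hx
  coord := fun _ hy => (bPt hx hE hy).coord
  ess := fun _ hy => (bPt hx hE hy).ess
  finDiv := bFinDiv
  centre := bCentre hx hE
  infPts := bInfPts hx hE
  cl_div := bClDiv hx hE
  ex_div := bExDiv hx hE
  cl_surj := bSurj hx hE
  finSec := bFinSec
  rr := bRR hx hE
  canon := bCanon hx hE
  A_sq := bASq
  sep := bSep hx hE
  jet := bJet hx hE
  serre := bSerre hx hE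

theorem Reg.blow {S : PSurf L} (hS : S.Reg) {x : Subalgebra ℂ L} (hx : x ∈ S.pts) {E : DVal L}
    (hE : IsOrd x E) : (S.blow x hx E hE).Reg where
  fg := by
    have := hS.fg
    exact (inferInstance : Module.Finite ℤ (S.Λ × ℤ))
  chi0_eq := bChi0 hS hx hE
  num := bNum hS

theorem Pos.blow {S : PSurf L} (hS : S.Pos) {x : Subalgebra ℂ L} (hx : x ∈ S.pts) {E : DVal L}
    (hE : IsOrd x E) : (S.blow x hx E hE).Pos where
  chi_pos := hS.chi_pos
  inf := by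
    intro hc
    have h1 := (hS.inf hc).image (f := fun u : S.Λ => sn u 0) fun u _ v _ h => (sn_inj h).1
    refine h1.mono ?_
    rintro _ ⟨u, hu, rfl⟩ F
    obtain ⟨v, k, rfl⟩ := exists_sn F
    change S.bForm (sn u 0) (sn v k) = 0
    rw [bForm_sn, hu v, zero_mul, sub_zero]

end PSurf

end Pool.Agent.LibLB
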