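import Pool.Agent.LibLB.Conv

/-! [KB C02] `isPlane_of_coord`: algebraic independence from `Coord.inj` (`AlgebraicIndependent` is
injectivity of `MvPolynomial.aeval ![a, b]`, `injective_iff_map_eq_zero`); every `z` is in
`IntermediateField.adjoin ℂ {a, b}` by `Coord.gen` (`aeval` of a polynomial is in the subalgebra
generated by `a, b`, which is contained in the intermediate field; `div_mem`).

`hh_zero`: `S.hh 0 = h0 S.prm 0` (`hh_cl` for the zero divisor, whose class is `0`: `S.cl_div 1`
with `ord_one`, or `clOf_zsmul 0`). A section `f` of the zero divisor is constant: take `x ∈ S.pts`,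
`f ∈ x` (`Pt.mem_iff`), `Pt.exists_ord`, `IsOrd.exists_jet` with `m = 1` gives `c` with `Ge E 1 (f - c)`
(a polynomial of degree `< 1` is constant). If `f ≠ c`, `h := f - c` is a section of the zero divisor:
`0 ≤ ν.ord h` on `S.prm`, and `frm S.A (clOf (ν.ord h)) = 0` (`S.cl_div`) is
`∑ ν.ord h * frm S.A (S.cls ν)` with `frm S.A (S.cls ν) ≥ 1`, so `ν.ord h = 0` on `S.prm`
(`clOf` is a finite sum: `finsum_mem_eq_sum_of_subset`); then `h⁻¹ ∈ x` (`Pt.mem_iff`), so `E.ord h = 0`
(`ord_eq_zero_of_unit`), contradiction. So `sec S.prm 0` is the span of `1`: `finrank_eq_one`. -/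

set_option autoImplicit false

open Pool.Agent.LibGMM Pool.Agent.LibK Pool.Agent.LibKB

namespace Pool.Agent.LibLB

variable {L : Type} [Field L] [Algebra ℂ L]

namespace PSurf

variable {S : PSurf L}

/-- The degree `A · D` as a sum. -/
theorem form_cl (v : S.Λ) (D : DVal L → ℤ) (hD : IsDiv S.prm D) :
    S.form v (S.cl D) = ∑ᶠ ν ∈ S.prm, D ν * S.form v (S.cls ν) := by
  have h1 := AddMonoidHom.map_finsum_mem' (S.form v).toAddMonoidHom (clOf_supp (cls := S.cls) hD)
  change S.form v (∑ᶠ ν ∈ S.prm, D ν • S.cls ν) = _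
  refine h1.trans (finsum_mem_congr rfl fun ν _ => ?_)
  change S.form v (D ν • S.cls ν) = _
  rw [map_smul, smul_eq_mul]

theorem cl_const_zero : S.cl (fun _ => 0) = 0 := by
  change ∑ᶠ ν ∈ S.prm, (0 : ℤ) • S.cls ν = 0
  simp

/-- A function with no poles on the surface and a zero of the local ring is zero. -/
theorem eq_zero_of_ge (hC : CurveFacts S) {h : L} (hs : h ∈ sec S.prm (fun _ => 0))
    {x : Subalgebra ℂ L} (hx : Pt S.prm x) {E : DVal L} (hE : IsOrd x E) (hge : Ge E 1 h) :
    h = 0 := by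
  by_contra h0
  have hnn : ∀ ν ∈ S.prm, 0 ≤ ν.ord h := by
    intro ν hν
    have h1 := hs ν hν h0
    rwa [add_zero] at h1
  have hdiv : IsDiv S.prm (fun ν => ν.ord h) := S.finDiv h h0
  have hfin : {ν | ν ∈ S.prm ∧ ν.ord h ≠ 0}.Finite := S.finDiv h h0
  have h1 := form_cl S.A (fun ν => ν.ord h) hdiv
  have h2 : S.cl (fun ν => ν.ord h) = 0 := S.cl_div h h0
  have h3 : S.form S.A 0 = 0 := map_zero _
  rw [h2, h3, finsum_mem_eq_sum_of_subset (t := hfin.toFinset)] at h1
  · have h4 := (Finset.sum_eq_zero_iff_of_nonneg (fun ν hν => by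
      have hν' : ν ∈ S.prm := ((Set.Finite.mem_toFinset _).1 hν).1
      have h5 := (hC ν hν').1
      exact mul_nonneg (hnn ν hν') (by omega))).1 h1.symm
    have h5 : ∀ ν ∈ S.prm, ν.ord h = 0 := by
      intro ν hν
      by_contra hne
      have h6 := h4 ν ((Set.Finite.mem_toFinset _).2 ⟨hν, hne⟩)
      have h7 := (hC ν hν).1
      rcases mul_eq_zero.1 h6 with h8 | h8
      · exact hne h8
      · omega
    have hxh : h ∈ x := by
      rw [hx.mem_iff]
      intro ν hν _
      exact hnn ν hν
    have hxi : h⁻¹ ∈ x := by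
      rw [hx.mem_iff]
      intro ν hν _
      rw [ord_inv ν h0, h5 ν hν, neg_zero]
    have h6 := ord_eq_zero_of_unit hxh h0 hxi hE.le_ring
    have h7 := hge h0
    omega
  · rintro ν ⟨h5, h6⟩
    rw [Set.Finite.coe_toFinset]
    refine ⟨h5, fun h7 => h6 ?_⟩
    change ν.ord h * _ = 0
    rw [h7, zero_mul]
  · intro ν hν
    rw [Set.Finite.coe_toFinset] at hν
    exact hν.1

theorem hh_zero (hC : CurveFacts S) : S.hh 0 = 1 := by
  have h1 := hh_cl (S := S) (D := fun _ => 0) isDiv_zero
  rw [cl_const_zero] at h1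
  rw [h1]
  unfold h0
  have hone : (1 : L) ∈ sec S.prm (fun _ => 0) := by
    intro ν _ _
    rw [ord_one]
    exact le_refl _
  refine finrank_eq_one (⟨1, hone⟩ : sec S.prm (fun _ => 0)) ?_ ?_
  · intro h
    exact one_ne_zero (congrArg Subtype.val h)
  · rintro ⟨f, hf⟩
    obtain ⟨x, hxp⟩ := S.ptsNe
    have hx := S.pt hxp
    obtain ⟨E, hE⟩ := hx.exists_ord
    obtain ⟨a, b, hab⟩ := hx.coord
    have hfx : f ∈ x := by
      rw [hx.mem_iff]
      intro ν hν _
      by_cases h0 : f = 0
      · rw [h0, ν.ord_zero]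
      · have h2 := hf ν hν h0
        rwa [add_zero] at h2
    obtain ⟨P, hP, hge⟩ := hE.exists_jet hab 1 hfx
    have hPc : P = MvPolynomial.C (MvPolynomial.coeff 0 P) := by
      ext d
      rw [MvPolynomial.coeff_C]
      split_ifs with hd
      · rw [← hd]
      · by_contra hne
        have h2 := hP d (MvPolynomial.mem_support_iff.2 hne)
        have h3 : d.degree = 0 := by omega
        exact hd ((Finsupp.degree_eq_zero_iff d).1 h3).symm
    set c := MvPolynomial.coeff 0 P with hc
    rw [hPc, MvPolynomial.aeval_C] at hge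
    have hsec : f - algebraMap ℂ L c ∈ sec S.prm (fun _ => 0) := by
      refine Submodule.sub_mem _ hf ?_
      rw [Algebra.algebraMap_eq_smul_one]
      exact Submodule.smul_mem _ _ hone
    have h2 := eq_zero_of_ge hC hsec hx hE (by exact_mod_cast hge)
    refine ⟨c, Subtype.ext ?_⟩
    change c • (1 : L) = f
    rw [← Algebra.algebraMap_eq_smul_one]
    exact (sub_eq_zero.1 h2).symm

end PSurf

end Pool.Agent.LibLB
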