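import Pool.Agent.LibLB.C02

/-! [KB C05] `pos_of_loc`: if `D ≥ 0` on `S.prm` has a component through `x`, a local equation `g` is in
`x` (`Pt.mem_iff`) and not a unit (`ord_eq_zero_of_unit` along the component), so `E.ord g ≥ 1`
(`IsOrd.inv_mem`). `form_nonneg`: `clOf D = ∑ D ν cls ν` (finite sums over the supports),
`frm (cl D) (cl D') = ∑ ∑ D ν D' μ frm (cls ν) (cls μ)`, in every nonzero term `ν ≠ μ`, so it is
`≥ 0` by the last fact of `CurveFacts`. `C3`: `S' := S.blow x hx E hE`, let `D1 ν = if ν = E then 0 else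
D ν` and `D1'` similarly: divisors on `S'`, effective, without common component;
`bcl` : `S'.cl D1 = sn (S.cl D) (- S.mul x E D)` (`mul_congr`, `clOf_congr`: `E ∉ S.prm`);
`frm_sn`: `0 ≤ frm (cl D) (cl D') - mul D * mul D'` and `mul ≥ 1` (`mul_eq`). -/

set_option autoImplicit false

open Pool.Agent.LibGMM Pool.Agent.LibK Pool.Agent.LibKB

namespace Pool.Agent.LibLB

variable {L : Type} [Field L] [Algebra ℂ L]

namespace PSurf

variable {S : PSurf L} {x : Subalgebra ℂ L} {E : DVal L} {D D' : DVal L → ℤ}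

theorem pos_of_loc (hx : x ∈ S.pts) (hE : IsOrd x E) (hD : ∀ ν ∈ S.prm, 0 ≤ D ν) {g : L}
    (hg : LocEqn S.prm x D g) (h : ∃ ν ∈ S.prm, x ≤ ν.ring ∧ 0 < D ν) : 1 ≤ E.ord g := by
  obtain ⟨ν, hν, hxν, h1⟩ := h
  have hgx : g ∈ x := by
    rw [(S.pt hx).mem_iff]
    intro μ hμ hxμ
    rw [hg.2 μ hμ hxμ]
    exact hD μ hμ
  have h2 : 0 ≤ E.ord g := hE.le_ring hgx
  by_contra hcon
  have h3 : E.ord g = 0 := by omega
  have h4 := ord_eq_zero_of_unit hgx hg.1 (hE.inv_mem hgx hg.1 h3) hxν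
  rw [hg.2 ν hν hxν] at h4
  omega

theorem form_nonneg (hC : CurveFacts S) (hD : IsDiv S.prm D) (hD' : IsDiv S.prm D')
    (h0 : ∀ ν ∈ S.prm, 0 ≤ D ν) (h0' : ∀ ν ∈ S.prm, 0 ≤ D' ν)
    (h : ∀ ν ∈ S.prm, D ν = 0 ∨ D' ν = 0) : 0 ≤ S.form (S.cl D) (S.cl D') := by
  rw [form_cl _ D' hD']
  refine finsum_mem_induction (fun z : ℤ => 0 ≤ z) le_rfl (fun _ _ => add_nonneg) ?_
  intro μ hμ
  rcases h μ hμ with h1 | h1
  · refine mul_nonneg (h0' μ hμ) ?_
    rw [S.symm, form_cl _ D hD]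
    refine finsum_mem_induction (fun z : ℤ => 0 ≤ z) le_rfl (fun _ _ => add_nonneg) ?_
    intro ν hν
    by_cases hνμ : ν = μ
    · rw [hνμ, h1, zero_mul]
    · exact mul_nonneg (h0 ν hν) ((hC ν hν).2.2.2.2.2 μ hμ (Ne.symm hνμ))
  · rw [h1, zero_mul]

open Classical in
/-- the divisor with the coefficient of `E` replaced by zero -/
private noncomputable def c05D (E : DVal L) (D : DVal L → ℤ) : DVal L → ℤ :=
  fun ν => if ν = E then 0 else D ν

private theorem c05D_E (E : DVal L) (D : DVal L → ℤ) : c05D E D E = 0 := by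
  unfold c05D
  exact if_pos rfl

private theorem c05D_ne {E ν : DVal L} (D : DVal L → ℤ) (h : ν ≠ E) : c05D E D ν = D ν := by
  unfold c05D
  exact if_neg h

theorem C3 (hC : ∀ S : PSurf L, CurveFacts S) (hx : x ∈ S.pts) (hD : IsDiv S.prm D)
    (hD' : IsDiv S.prm D') (h0 : ∀ ν ∈ S.prm, 0 ≤ D ν) (h0' : ∀ ν ∈ S.prm, 0 ≤ D' ν)
    (h : ∀ ν ∈ S.prm, D ν = 0 ∨ D' ν = 0) (h1 : ∃ ν ∈ S.prm, x ≤ ν.ring ∧ 0 < D ν)
    (h2 : ∃ ν ∈ S.prm, x ≤ ν.ring ∧ 0 < D' ν) : 1 ≤ S.form (S.cl D) (S.cl D') := by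
  obtain ⟨E, hE⟩ := (S.pt hx).exists_ord
  have hnE : ∀ ν ∈ S.prm, ν ≠ E := by
    rintro ν hν rfl
    exact notMem hx hE hν
  have hcong : ∀ F : DVal L → ℤ, ∀ ν ∈ S.prm, F ν = c05D E F ν := fun F ν hν =>
    (c05D_ne F (hnE ν hν)).symm
  have hmulpos : ∀ F : DVal L → ℤ, IsDiv S.prm F → (∀ ν ∈ S.prm, 0 ≤ F ν) →
      (∃ ν ∈ S.prm, x ≤ ν.ring ∧ 0 < F ν) → 1 ≤ S.mul x E F := by
    intro F hF hF0 hF1
    obtain ⟨g, hg⟩ := (S.pt hx).exists_loc hF
    rw [mul_eq hx hE hg]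
    exact pos_of_loc hx hE hF0 hg hF1
  have hcl : ∀ F : DVal L → ℤ, IsDiv S.prm F →
      (S.blow x hx E hE).cl (c05D E F) = sn (S.cl F) (-S.mul x E F) := by
    intro F hF
    change clOf (S.bPrm E) (S.bCls x E) (c05D E F) = _
    rw [bcl hx hE (hF.congr (hcong F)), c05D_E, zero_sub,
      ← mul_congr (x := x) (E := E) (hcong F)]
    congr 1
    exact (clOf_congr (hcong F)).symm
  have hdiv : ∀ F : DVal L → ℤ, IsDiv S.prm F → IsDiv (S.blow x hx E hE).prm (c05D E F) := by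
    intro F hF
    change IsDiv (S.bPrm E) _
    exact isDiv_bPrm.2 (hF.congr (hcong F))
  have hnn : ∀ F : DVal L → ℤ, (∀ ν ∈ S.prm, 0 ≤ F ν) →
      ∀ ν ∈ (S.blow x hx E hE).prm, 0 ≤ c05D E F ν := by
    intro F hF ν hν
    have hν' : ν = E ∨ ν ∈ S.prm := hν
    rcases hν' with h3 | h3
    · rw [h3, c05D_E]
    · rw [← hcong F ν h3]
      exact hF ν h3
  have key := form_nonneg (hC (S.blow x hx E hE)) (hdiv D hD) (hdiv D' hD') (hnn D h0) (hnn D' h0')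
    (by
      intro ν hν
      have hν' : ν = E ∨ ν ∈ S.prm := hν
      rcases hν' with h3 | h3
      · left
        rw [h3, c05D_E]
      · rw [← hcong D ν h3, ← hcong D' ν h3]
        exact h ν h3)
  rw [hcl D hD, hcl D' hD'] at key
  change 0 ≤ S.bForm (sn (S.cl D) (-S.mul x E D)) (sn (S.cl D') (-S.mul x E D')) at key
  rw [bForm_sn] at key
  have h3 := hmulpos D hD h0 h1
  have h4 := hmulpos D' hD' h0' h2
  nlinarith

end PSurf

end Pool.Agent.LibLB
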