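import Pool.Agent.LibLB.Conv

/-! [KB C06] Facts for the record `BlowUp`. `mul_prd_nonneg`: a local equation `g` of `prd ν` at `x` has
order `≥ 0` at the primes through `x`, so `g ∈ x` (`Pt.mem_iff`) and `E.ord g ≥ 0` (`IsOrd.le_ring`),
`mul_eq`. `mul_prd_pos`: if `x ≤ ν.ring`, `ν.ord g = 1` so `g` is not a unit of `x`
(`ord_eq_zero_of_unit`), so `E.ord g ≥ 1` (`IsOrd.inv_mem`). If not, `1` is a local equation, so
`mul = E.ord 1 = 0`. `hh_blow_nonneg`: take `D` on `S` with class `α` (`S.rep α`), change its value at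
`E` to `S.mul x E D + j`: class `sn α j` (`bcl`, `mul_congr`, `clOf_congr`), `hh_cl` on both surfaces
(`(S.blow ..).cl = clOf (S.bPrm E) (S.bCls x E)` by `rfl`), `sec_b_eq`. `hh_blow_neg`: similarly with
value `S.mul x E D - 1` at `E`: `sec' D` is the subspace of `sec S.prm D` of the `f` with
`Ge E 1 (f * g)` (`mem_sec_b`), i.e. the `f` which are not generators (`Pt.pos_of_not_gen`,
`Pt.not_gen_of_pos`); `finrank` of a subspace is smaller iff the subspace is proper
(`Submodule.finrank_lt_finrank_of_lt`, `Submodule.eq_of_le_of_finrank_eq`; `S.finSec`). -/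

set_option autoImplicit false

open Pool.Agent.LibGMM Pool.Agent.LibK Pool.Agent.LibKB

namespace Pool.Agent.LibLB

variable {L : Type} [Field L] [Algebra ℂ L]

namespace PSurf

variable {S : PSurf L} {x : Subalgebra ℂ L} {E : DVal L}

theorem mul_prd_nonneg (hx : x ∈ S.pts) (hE : IsOrd x E) (ν : DVal L) :
    0 ≤ S.mul x E (prd ν) := by
  obtain ⟨g, hg⟩ := (S.pt hx).exists_loc (isDiv_prd (P := S.prm) ν)
  rw [mul_eq hx hE hg]
  have h1 : g ∈ x := by
    rw [(S.pt hx).mem_iff]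
    intro μ hμ hxμ
    rw [hg.2 μ hμ hxμ]
    exact prd_nonneg ν μ
  exact hE.le_ring h1

theorem mul_prd_pos (hx : x ∈ S.pts) (hE : IsOrd x E) {ν : DVal L} (hν : ν ∈ S.prm) :
    0 < S.mul x E (prd ν) ↔ x ≤ ν.ring := by
  constructor
  · intro h
    by_contra hcon
    have h1 : LocEqn S.prm x (prd ν) 1 := by
      refine ⟨one_ne_zero, ?_⟩
      intro μ _ hxμ
      have h2 : μ ≠ ν := by
        rintro rfl
        exact hcon hxμ
      rw [ord_one, prd_ne h2]
    rw [mul_eq hx hE h1, ord_one] at h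
    exact lt_irrefl _ h
  · intro h
    obtain ⟨g, hg⟩ := (S.pt hx).exists_loc (isDiv_prd (P := S.prm) ν)
    have h1 : g ∈ x := by
      rw [(S.pt hx).mem_iff]
      intro μ hμ hxμ
      rw [hg.2 μ hμ hxμ]
      exact prd_nonneg ν μ
    rw [mul_eq hx hE hg]
    have h2 : 0 ≤ E.ord g := hE.le_ring h1
    rcases lt_or_eq_of_le h2 with h3 | h3
    · exact h3
    · exfalso
      have h4 := ord_eq_zero_of_unit h1 hg.1 (hE.inv_mem h1 hg.1 h3.symm) h
      rw [hg.2 ν hν h, prd_self] at h4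
      exact one_ne_zero h4

/-- change of the value at the exceptional curve -/
private noncomputable def C06_chg (D : DVal L → ℤ) (E : DVal L) (m : ℤ) : DVal L → ℤ := by
  classical
  exact fun ν => if ν = E then m else D ν

private theorem C06_chg_E (D : DVal L → ℤ) (E : DVal L) (m : ℤ) : C06_chg D E m E = m := by
  simp [C06_chg]

private theorem C06_chg_old (hx : x ∈ S.pts) (hE : IsOrd x E) (D : DVal L → ℤ) (m : ℤ)
    {ν : DVal L} (hν : ν ∈ S.prm) : D ν = C06_chg D E m ν := by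
  have h : ν ≠ E := by
    rintro rfl
    exact notMem hx hE hν
  simp [C06_chg, h]

private theorem C06_isDiv (hx : x ∈ S.pts) (hE : IsOrd x E) {D : DVal L → ℤ} (hD : IsDiv S.prm D)
    (m : ℤ) : IsDiv S.prm (C06_chg D E m) :=
  hD.congr fun _ hν => C06_chg_old hx hE D m hν

private theorem C06_mul (hx : x ∈ S.pts) (hE : IsOrd x E) (D : DVal L → ℤ) (m : ℤ) :
    S.mul x E (C06_chg D E m) = S.mul x E D :=
  (mul_congr fun _ hν => C06_chg_old hx hE D m hν).symm

private theorem C06_cl (hx : x ∈ S.pts) (hE : IsOrd x E) {D : DVal L → ℤ} (hD : IsDiv S.prm D)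
    (j : ℤ) : (S.blow x hx E hE).cl (C06_chg D E (S.mul x E D + j)) = sn (S.cl D) j := by
  have h1 := bcl hx hE (C06_isDiv hx hE hD (S.mul x E D + j))
  have h2 : S.cl (C06_chg D E (S.mul x E D + j)) = S.cl D :=
    (clOf_congr fun _ hν => C06_chg_old hx hE D (S.mul x E D + j) hν).symm
  rw [h2, C06_mul hx hE, C06_chg_E, add_sub_cancel_left] at h1
  exact h1

private theorem C06_hh (hx : x ∈ S.pts) (hE : IsOrd x E) {D : DVal L → ℤ} (hD : IsDiv S.prm D)
    (j : ℤ) : (S.blow x hx E hE).hh (sn (S.cl D) j)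
      = h0 (S.bPrm E) (C06_chg D E (S.mul x E D + j)) := by
  rw [← C06_cl hx hE hD j]
  exact hh_cl (S := S.blow x hx E hE) (isDiv_bPrm.2 (C06_isDiv hx hE hD (S.mul x E D + j)))

theorem hh_blow_nonneg (hx : x ∈ S.pts) (hE : IsOrd x E) (α : S.Λ) (j : ℕ) :
    (S.blow x hx E hE).hh (sn α j) = S.hh α := by
  have hD := S.isDiv_rep α
  have h1 := C06_hh hx hE hD (j : ℤ)
  rw [S.cl_rep α] at h1
  rw [h1]
  have hD' := C06_isDiv hx hE hD (S.mul x E (S.rep α) + j)
  obtain ⟨g, hg⟩ := (S.pt hx).exists_loc hD'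
  have h2 : E.ord g ≤ C06_chg (S.rep α) E (S.mul x E (S.rep α) + j) E := by
    rw [← mul_eq hx hE hg, C06_mul hx hE, C06_chg_E]
    omega
  have h3 : h0 (S.bPrm E) (C06_chg (S.rep α) E (S.mul x E (S.rep α) + j))
      = h0 S.prm (C06_chg (S.rep α) E (S.mul x E (S.rep α) + j)) := by
    unfold h0
    rw [sec_b_eq hx hE hg h2]
  rw [h3]
  exact (h0_congr fun _ hν => C06_chg_old hx hE (S.rep α) _ hν).symm

theorem hh_blow_neg (hx : x ∈ S.pts) (hE : IsOrd x E) (D : DVal L → ℤ)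
    (hD : IsDiv S.prm D) :
    (S.blow x hx E hE).hh (sn (S.cl D) (-1)) < S.hh (S.cl D) ↔ ∃ f, Gen S.prm x D f := by
  obtain ⟨g, hg⟩ := (S.pt hx).exists_loc hD
  set D' := C06_chg D E (S.mul x E D + -1) with hD'
  have hg' : LocEqn S.prm x D' g := hg.congr fun _ hν => C06_chg_old hx hE D _ hν
  have hDE : E.ord g - D' E = 1 := by
    rw [hD', C06_chg_E, mul_eq hx hE hg]
    ring
  have hsec : sec S.prm D' = sec S.prm D :=
    (sec_congr fun _ hν => C06_chg_old hx hE D _ hν).symm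
  have hmem : ∀ f, f ∈ sec (S.bPrm E) D' ↔ f ∈ sec S.prm D ∧ Ge E 1 (f * g) := by
    intro f
    rw [mem_sec_b hg', hsec, hDE]
  have hle : sec (S.bPrm E) D' ≤ sec S.prm D := fun f hf => ((hmem f).1 hf).1
  have hfin : Module.Finite ℂ (sec S.prm D) := S.finSec D hD
  rw [C06_hh hx hE hD (-1), hh_cl hD]
  change Module.finrank ℂ (sec (S.bPrm E) D') < Module.finrank ℂ (sec S.prm D) ↔ _
  constructor
  · intro h
    by_contra hcon
    push Not at hcon
    have h1 : sec (S.bPrm E) D' = sec S.prm D := by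
      refine le_antisymm hle ?_
      intro f hf
      exact (hmem f).2 ⟨hf, (S.pt hx).pos_of_not_gen hE hg hf (hcon f)⟩
    rw [h1] at h
    exact lt_irrefl _ h
  · rintro ⟨f, hf⟩
    apply Submodule.finrank_lt_finrank_of_lt
    refine lt_of_le_of_ne hle ?_
    intro h1
    have h2 : f ∈ sec (S.bPrm E) D' := by
      rw [h1]
      exact hf.1
    exact (S.pt hx).not_gen_of_pos hE hg ((hmem f).1 h2).2 hf

end PSurf

end Pool.Agent.LibLB
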