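import Pool.Agent.LibLB.Blow0

/-! [KB R02] The exceptional curve does not pass through the other closed points.

Proof. Let `D` be a divisor of class `A` (`S.isDiv_rep`, `S.cl_rep`). `S.jet` at `x` with `z = 1`
(`one_mem`), `E`, a local equation `g` of `D` at `x` gives `f ∈ sec D` with `Ge E 2 (f * g - 1)`, so
`f * g ≠ 0` and `E.ord (f * g) = 0` (`ord_add_of_ge` with `f := 1`). `S.sep` (vanishing at `x`, not at
`y`) gives `f1` with `Gen y D f1`, `¬ Gen x D f1`. By `Pt.pos_of_not_gen`, `1 ≤ E.ord (f1 * g)`, so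
`E.ord (f / f1) < 0`. But `f / f1 ∈ y` by `Pt.mem_iff` at `y` (`ν.ord f ≥ - D ν = ν.ord f1`). -/

set_option autoImplicit false

open Pool.Agent.LibGMM Pool.Agent.LibK Pool.Agent.LibKB

namespace Pool.Agent.LibLB

variable {L : Type} [Field L] [Algebra ℂ L]

namespace PSurf

variable {S : PSurf L} {x y : Subalgebra ℂ L} {E : DVal L}

theorem not_through (hx : x ∈ S.pts) (hE : IsOrd x E) (hy : y ∈ S.pts) (hne : y ≠ x) :
    ¬ y ≤ E.ring := by
  intro hyE
  have hD : IsDiv S.prm (S.rep S.A) := S.isDiv_rep _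
  have hcl : clOf S.prm S.cls (S.rep S.A) = S.A := S.cl_rep _
  obtain ⟨g, hg⟩ := (S.pt hx).exists_loc hD
  obtain ⟨f, hf, h1⟩ := S.jet _ hD hcl x hx E hE g hg 1 (one_mem x)
  have h2 := ord_add_of_ge E (one_ne_zero (α := L)) (g := f * g - 1)
    (by rw [ord_one]; exact h1.mono (by norm_num))
  rw [add_sub_cancel, ord_one] at h2
  obtain ⟨h3, h4⟩ := h2
  have hf0 : f ≠ 0 := left_ne_zero_of_mul h3
  obtain ⟨f1, h5, h6⟩ := S.sep _ hD hcl x hx y hy (Ne.symm hne)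
  have hf1 : f1 ≠ 0 := h5.2.1
  have h7 : Ge E 1 (f1 * g) := (S.pt hx).pos_of_not_gen hE hg h5.1 h6
  have h8 := h7 (mul_ne_zero hf1 hg.1)
  have h9 : f / f1 ∈ y := by
    rw [(S.pt hy).mem_iff]
    intro ν hν hyν
    rw [ord_div ν hf0 hf1]
    have h10 := h5.2.2 ν hν hyν
    have h11 := hf ν hν hf0
    omega
  have h12 : 0 ≤ E.ord (f / f1) := hyE h9
  rw [ord_div E hf0 hf1] at h12
  rw [E.ord_mul _ _ hf0 hg.1] at h4
  rw [E.ord_mul _ _ hf1 hg.1] at h8
  omega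

end PSurf

end Pool.Agent.LibLB
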