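import Pool.Agent.LibLB.R02

/-! [KB R03] The closed points of the blow-up.

Proof. `y ∈ S.pts`, `y ≠ x`: coordinates by `S.coord`; `ν ∈ Ess y ↔ ν ∈ S.prm ∧ y ≤ ν.ring`, and
`y ≤ ν.ring` excludes `ν = E` by `not_through`. `Over x y`: `obtain ⟨a, b, h, h'⟩`; coordinates
`(a, b / a)`; `RLR.ess_over`: `ν ∈ Ess y ↔ ν = E ∨ (ν ∈ Ess x ∧ y ≤ ν.ring)`, and
`ν ∈ Ess x ↔ ν ∈ S.prm ∧ x ≤ ν.ring` (`S.ess`), `x ≤ y` (`RLR.over_le`); `E ∈ Ess y` gives `y ≤ E.ring`.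
`bInfPts`: for `ν ∈ S.prm` the set contains `{y | y ∈ S.pts ∧ y ≤ ν.ring} \ {x}`; for `ν = E` it contains
`{y | Over x y}` (`RLR.infinite_over`). `bCentre`: `S.centre`; if `V` dominates `x` use
`RLR.dom_over`. -/

set_option autoImplicit false

open Pool.Agent.LibGMM Pool.Agent.LibK Pool.Agent.LibKB

namespace Pool.Agent.LibLB

variable {L : Type} [Field L] [Algebra ℂ L]

namespace PSurf

variable {S : PSurf L} {x y : Subalgebra ℂ L} {E : DVal L}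

theorem over_le_ring (hE : IsOrd x E) (hy : Over x y) : y ≤ E.ring := by
  obtain ⟨a, b, h'⟩ := hy
  have h := h'.rlr
  exact ((h.ess_over h' hE E).2 (Or.inl rfl)).1

theorem bPt (hx : x ∈ S.pts) (hE : IsOrd x E) (hy : y ∈ S.bPts x) : Pt (S.bPrm E) y := by
  rcases hy with ⟨hy, hne⟩ | hy
  · refine ⟨S.coord y hy, fun ν => ?_⟩
    rw [S.ess y hy ν]
    constructor
    · rintro ⟨h1, h2⟩
      exact ⟨Set.mem_insert_of_mem _ h1, h2⟩
    · rintro ⟨h1, h2⟩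
      rcases h1 with rfl | h1
      · exact absurd h2 (not_through hx hE hy hne)
      · exact ⟨h1, h2⟩
  · have h0 := over_le_ring hE hy
    obtain ⟨a, b, h'⟩ := hy
    have h := h'.rlr
    refine ⟨⟨a, b / a, h'.rlr'⟩, fun ν => ?_⟩
    rw [h.ess_over h' hE ν]
    constructor
    · rintro (rfl | ⟨h1, h2⟩)
      · exact ⟨Set.mem_insert _ _, h0⟩
      · exact ⟨Set.mem_insert_of_mem _ ((S.ess x hx ν).1 h1).1, h2⟩
    · rintro ⟨h1, h2⟩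
      rcases h1 with rfl | h1
      · exact Or.inl rfl
      · exact Or.inr ⟨(S.ess x hx ν).2 ⟨h1, le_trans (h.over_le h') h2⟩, h2⟩

theorem bInfPts (hx : x ∈ S.pts) (hE : IsOrd x E) (ν : DVal L) (hν : ν ∈ S.bPrm E) :
    {y | y ∈ S.bPts x ∧ y ≤ ν.ring}.Infinite := by
  rcases hν with rfl | hν
  · obtain ⟨a, b, hab⟩ := S.coord x hx
    refine hab.infinite_over.mono ?_
    intro y hy
    exact ⟨Or.inr hy, over_le_ring hE hy⟩
  · refine ((S.infPts ν hν).sdiff (Set.finite_singleton x)).mono ?_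
    rintro y ⟨⟨h1, h2⟩, h3⟩
    exact ⟨Or.inl ⟨h1, h3⟩, h2⟩

theorem bCentre (hx : x ∈ S.pts) (hE : IsOrd x E) (V : ValuationSubring L)
    (hV : ∀ c : ℂ, algebraMap ℂ L c ∈ V) (hV' : V ≠ ⊤) :
    (∃ y ∈ S.bPts x, VDom y V) ∨ ∃ ν ∈ S.bPrm E, ∀ f, f ∈ V ↔ 0 ≤ ν.ord f := by
  rcases S.centre V hV hV' with ⟨y, hy, h1⟩ | ⟨ν, hν, h1⟩
  · by_cases hyx : y = x
    · subst hyx
      obtain ⟨a, b, hab⟩ := S.coord y hy
      rcases hab.dom_over hE V h1 with h2 | ⟨z, hz, h2⟩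
      · exact Or.inr ⟨E, Set.mem_insert _ _, h2⟩
      · exact Or.inl ⟨z, Or.inr hz, h2⟩
    · exact Or.inl ⟨y, Or.inl ⟨hy, hyx⟩, h1⟩
  · exact Or.inr ⟨ν, Set.mem_insert_of_mem _ hν, h1⟩

theorem bFinDiv : FinDiv (S.bPrm E) := by
  intro f hf
  exact isDiv_bPrm.2 (S.finDiv f hf)

end PSurf

end Pool.Agent.LibLB
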