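import Pool.Agent.LibLB.R03

/-! [KB R07] Local equations and sections on the blow-up.

`loc_old`: `ν = E` is excluded by `not_through`. `loc_over`: let `m = D E - E.ord g`. At `ν = E`:
`E.ord a = 1` (`IsOrd.ord_ev` for the polynomial `X 0`, see `ord_a`), so `E.ord (g * a ^ m) = D E`. At
`ν ∈ S.prm` with `y ≤ ν.ring`: `x ≤ y ≤ ν.ring`, so `ν ∈ Ess x`, `ν.ord a = 0` (`RLR.over_ord_a`) and
`ν.ord g = D ν`. `mem_sec_b`: `sec_insert` and `E.ord (f * g) = E.ord f + E.ord g`. `sec_b_eq`: by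
`mem_sec_b` and `Pt.germ_mem` (`f * g ∈ x ≤ E.ring`). `ord_a`, `ord_b`: `IsOrd.ord_ev` with
`f = MvPolynomial.X 0`, `X 1`; `ordP (X i) = 1`: the coercion of `X i` to power series is
`MvPowerSeries.X i = monomial (single i 1) 1`, `MvPowerSeries.order_monomial_of_ne_zero`. -/

set_option autoImplicit false

open Pool.Agent.LibGMM Pool.Agent.LibK Pool.Agent.LibKB

namespace Pool.Agent.LibLB

variable {L : Type} [Field L] [Algebra ℂ L]

variable {x y : Subalgebra ℂ L} {E : DVal L} {a b : L}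

namespace PSurf

variable {S : PSurf L} {D : DVal L → ℤ} {g : L}

theorem loc_old (hx : x ∈ S.pts) (hE : IsOrd x E) (hy : y ∈ S.pts) (hne : y ≠ x)
    (hg : LocEqn S.prm y D g) : LocEqn (S.bPrm E) y D g := by
  refine ⟨hg.1, ?_⟩
  intro ν hν hyν
  rcases hν with rfl | hν
  · exact absurd hyν (not_through hx hE hy hne)
  · exact hg.2 ν hν hyν

theorem loc_over (hx : x ∈ S.pts) (hE : IsOrd x E) (h : RLR x a b) (h' : Bl x y a b)
    (hg : LocEqn S.prm x D g) : LocEqn (S.bPrm E) y D (g * a ^ (D E - E.ord g)) := by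
  obtain ⟨ha0, ha1, -⟩ := hE.ord_a h
  refine ⟨mul_ne_zero hg.1 (zpow_ne_zero _ ha0), ?_⟩
  intro ν hν hyν
  rw [ν.ord_mul _ _ hg.1 (zpow_ne_zero _ ha0), ord_zpow ν ha0]
  rcases hν with rfl | hν
  · rw [ha1]
    ring
  · have hxν : x ≤ ν.ring := le_trans (h.over_le h') hyν
    rw [h.over_ord_a h' ((S.ess x hx ν).2 ⟨hν, hxν⟩) hyν, mul_zero, add_zero]
    exact hg.2 ν hν hxν

theorem mem_sec_b {f : L} (hg : LocEqn S.prm x D g) :
    f ∈ sec (S.bPrm E) D ↔ f ∈ sec S.prm D ∧ Ge E (E.ord g - D E) (f * g) := by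
  unfold bPrm
  rw [sec_insert, Submodule.mem_inf]
  have h1 : f ∈ geSub E (-D E) ↔ Ge E (E.ord g - D E) (f * g) := by
    constructor
    · intro h h0
      have h2 : f ≠ 0 := left_ne_zero_of_mul h0
      have h3 : -D E ≤ E.ord f := h h2
      rw [E.ord_mul _ _ h2 hg.1]
      omega
    · intro h h0
      have h2 := h (mul_ne_zero h0 hg.1)
      rw [E.ord_mul _ _ h0 hg.1] at h2
      show -D E ≤ E.ord f
      omega
  rw [h1]

theorem sec_b_eq (hx : x ∈ S.pts) (hE : IsOrd x E) (hg : LocEqn S.prm x D g)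
    (h : E.ord g ≤ D E) : sec (S.bPrm E) D = sec S.prm D := by
  ext f
  rw [mem_sec_b hg]
  constructor
  · exact fun h1 => h1.1
  · intro h1
    refine ⟨h1, ?_⟩
    intro _
    have h2 : 0 ≤ E.ord (f * g) := hE.le_ring ((S.pt hx).germ_mem hg h1)
    omega

theorem bFinSec (D : DVal L → ℤ) (hD : IsDiv (S.bPrm E) D) :
    Module.Finite ℂ (sec (S.bPrm E) D) := by
  have h1 := S.finSec D (isDiv_bPrm.1 hD)
  have h2 : sec (S.bPrm E) D ≤ sec S.prm D := by
    intro f hf ν hν h0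
    exact hf ν (Set.mem_insert_of_mem _ hν) h0
  exact Submodule.finiteDimensional_of_le h2

end PSurf

end Pool.Agent.LibLB
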