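import Pool.Agent.LibLB.R12
import Pool.Agent.LibLB.R06

/-! [KB R13] Divisors of class `bA = 2 A - E` on the blow-up and products of two sections of `A`.

`exists_BA`: `exists_sn`-free: `bcl` gives `sn (S.cl D) (D E - S.mul x E D) = sn (2 • S.A) (-1)`,
`sn_inj`; `DA := S.rep S.A`; `PSurf.exists_decomp` with `k = 2`, `DF = 0` (`isDiv_zero`, its class is
`0`: `clOf_zsmul 0` or `S.cl_div 1`) gives `u`; `g` from `Pt.exists_loc`; `g ^ 2 * u` is a local equation of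
`D` at `x` (`BA.locD`, from `eq` and `loc`), so `S.mul x E D = E.ord (g ^ 2 * u)` (`mul_eq`).
`BA.sec_mem`: `mem_sec_b` with the local equation `g ^ 2 * u`: `f1 * f2 / u ∈ sec S.prm D` (`sec_mul`,
`sec_div`, `sec_congr`), `(f1 * f2 / u) * (g ^ 2 * u) = f1 * g * (f2 * g)`.
`BA.gen_old`: for `ν ∈ S.bPrm E` through `y`, `ν ≠ E` (`not_through`), so `ν ∈ S.prm` and the orders add up
to zero. `BA.not_gen_old`: for `ν ∈ S.prm` through `y`: `(ν f1 + DA ν) + (ν f2 + DA ν) = 0`, both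
terms are `≥ 0`. `BA.loc_over`: `PSurf.loc_over` with exponent `-1`. `BA.gen_over`: `Pt.gen_iff` for
`bPt` and `BA.loc_over`. -/

set_option autoImplicit false

open Pool.Agent.LibGMM Pool.Agent.LibK Pool.Agent.LibKB

namespace Pool.Agent.LibLB

variable {L : Type} [Field L] [Algebra ℂ L]

namespace PSurf

/-- `D` is a divisor of class `bA` on the blow-up: `D = 2 DA + div u` on `S.prm`, where `DA` has
class `A` and local equation `g` at `x`. -/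
structure BA (S : PSurf L) (x : Subalgebra ℂ L) (E : DVal L) (D DA : DVal L → ℤ) (u g : L) :
    Prop where
  isDiv : IsDiv S.prm DA
  cl : S.cl DA = S.A
  u0 : u ≠ 0
  eq : ∀ ν ∈ S.prm, D ν = 2 * DA ν + ν.ord u
  loc : LocEqn S.prm x DA g
  ex : D E = E.ord (g ^ 2 * u) - 1

variable {S : PSurf L} {x y : Subalgebra ℂ L} {E F : DVal L} {D DA : DVal L → ℤ}
  {u g a b f1 f2 : L}

private theorem kb_r13_loc (u0 : u ≠ 0) (eq : ∀ ν ∈ S.prm, D ν = 2 * DA ν + ν.ord u)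
    (loc : LocEqn S.prm x DA g) : LocEqn S.prm x D (g ^ 2 * u) := by
  refine ⟨mul_ne_zero (pow_ne_zero _ loc.1) u0, fun ν hν hxν => ?_⟩
  rw [ν.ord_mul _ _ (pow_ne_zero _ loc.1) u0, ord_pow ν loc.1, loc.2 ν hν hxν, eq ν hν]
  push_cast
  ring

theorem exists_BA (hx : x ∈ S.pts) (hE : IsOrd x E) (hD : IsDiv (S.bPrm E) D)
    (h : clOf (S.bPrm E) (S.bCls x E) D = S.bA) : ∃ DA u g, BA S x E D DA u g := by
  have hD' : IsDiv S.prm D := isDiv_bPrm.1 hD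
  rw [bcl hx hE hD', bA] at h
  obtain ⟨h1, h2⟩ := sn_inj h
  have h0 : S.cl (fun _ => 0) = 0 := by
    have h3 := clOf_zsmul (cls := S.cls) 0 hD'
    rw [zero_smul] at h3
    simpa [cl] using h3
  have h3 : S.cl D = (2 : ℤ) • S.cl (S.rep S.A) + S.cl (fun _ => 0) := by
    rw [S.cl_rep, h1, h0, add_zero]
  obtain ⟨u, hu, hu'⟩ := exists_decomp 2 hD' (S.isDiv_rep S.A) isDiv_zero h3
  obtain ⟨g, hg⟩ := (S.pt hx).exists_loc (S.isDiv_rep S.A)
  have hu2 : ∀ ν ∈ S.prm, D ν = 2 * S.rep S.A ν + ν.ord u := by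
    intro ν hν
    rw [hu' ν hν]
    ring
  refine ⟨S.rep S.A, u, g, S.isDiv_rep _, S.cl_rep _, hu, hu2, hg, ?_⟩
  rw [mul_eq hx hE (kb_r13_loc hu hu2 hg)] at h2
  omega

theorem BA.locD (H : BA S x E D DA u g) : LocEqn S.prm x D (g ^ 2 * u) :=
  kb_r13_loc H.u0 H.eq H.loc

theorem BA.sec_mem (H : BA S x E D DA u g) (h1 : f1 ∈ sec S.prm DA) (h2 : f2 ∈ sec S.prm DA)
    (h : Ge E 1 (f1 * g * (f2 * g))) : f1 * f2 / u ∈ sec (S.bPrm E) D := by
  refine (mem_sec_b H.locD).2 ⟨?_, ?_⟩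
  · have h3 := sec_div H.u0 (sec_mul h1 h2)
    rwa [sec_congr (D' := D) (fun ν hν => by rw [H.eq ν hν]; ring)] at h3
  · have h4 : f1 * f2 / u * (g ^ 2 * u) = f1 * g * (f2 * g) := by
      have := H.u0
      field_simp
    rw [h4, H.ex]
    have h5 : E.ord (g ^ 2 * u) - (E.ord (g ^ 2 * u) - 1) = 1 := by ring
    rw [h5]
    exact h

theorem BA.gen_old (H : BA S x E D DA u g) (hx : x ∈ S.pts) (hE : IsOrd x E) (hy : y ∈ S.pts)
    (hne : y ≠ x) (h1 : Gen S.prm y DA f1) (h2 : Gen S.prm y DA f2)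
    (h : f1 * f2 / u ∈ sec (S.bPrm E) D) : Gen (S.bPrm E) y D (f1 * f2 / u) := by
  have h12 : f1 * f2 ≠ 0 := mul_ne_zero h1.2.1 h2.2.1
  refine ⟨h, div_ne_zero h12 H.u0, ?_⟩
  intro ν hν hyν
  rcases hν with rfl | hν
  · exact absurd hyν (not_through hx hE hy hne)
  · rw [ord_div ν h12 H.u0, ν.ord_mul _ _ h1.2.1 h2.2.1, H.eq ν hν]
    have h3 := h1.2.2 ν hν hyν
    have h4 := h2.2.2 ν hν hyν
    linarith

theorem BA.not_gen_old (H : BA S x E D DA u g) (h1 : f1 ∈ sec S.prm DA)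
    (h2 : f2 ∈ sec S.prm DA) (h : ¬ Gen S.prm y DA f1) :
    ¬ Gen (S.bPrm E) y D (f1 * f2 / u) := by
  intro h3
  apply h
  have h12 : f1 * f2 ≠ 0 := by
    intro h4
    apply h3.2.1
    rw [h4, zero_div]
  have hf1 : f1 ≠ 0 := left_ne_zero_of_mul h12
  have hf2 : f2 ≠ 0 := right_ne_zero_of_mul h12
  refine ⟨h1, hf1, ?_⟩
  intro ν hν hyν
  have h4 := h3.2.2 ν (Set.mem_insert_of_mem _ hν) hyν
  rw [ord_div ν h12 H.u0, ν.ord_mul _ _ hf1 hf2, H.eq ν hν] at h4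
  have h5 := h1 ν hν hf1
  have h6 := h2 ν hν hf2
  linarith

theorem BA.loc_over (H : BA S x E D DA u g) (hx : x ∈ S.pts) (hE : IsOrd x E)
    (h : RLR x a b) (h' : Bl x y a b) : LocEqn (S.bPrm E) y D (g ^ 2 * u / a) := by
  have h1 := PSurf.loc_over hx hE h h' H.locD
  have h2 : D E - E.ord (g ^ 2 * u) = -1 := by
    rw [H.ex]
    ring
  rw [h2, zpow_neg_one, ← div_eq_mul_inv] at h1
  exact h1

theorem BA.gen_over (H : BA S x E D DA u g) (hx : x ∈ S.pts) (hE : IsOrd x E)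
    (h : RLR x a b) (h' : Bl x y a b) (hF : IsOrd y F)
    (hf : f1 * f2 / u ∈ sec (S.bPrm E) D) (h0 : f1 * f2 ≠ 0) :
    Gen (S.bPrm E) y D (f1 * f2 / u) ↔ F.ord (f1 * g * (f2 * g) / a) = 0 := by
  have h1 := (bPt hx hE (Or.inr ⟨a, b, h'⟩)).gen_iff hF (H.loc_over hx hE h h') hf
    (div_ne_zero h0 H.u0)
  have h4 : f1 * f2 / u * (g ^ 2 * u / a) = f1 * g * (f2 * g) / a := by
    have := H.u0
    field_simp
  rw [h4] at h1
  exact h1

end PSurf

end Pool.Agent.LibLB
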