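import Pool.Agent.LibLB.R07

/-! [KB R20] Germs at `x` of sections of `m A + T` (`T` generated at `x`) modulo order `m`.

Proof. `T` has a section `t` with `Gen S.prm x DT t`. Let `g1`, `g2` be local equations of `DA`, `DT` at
`x`; then `g1 ^ m * g2 * u` is a local equation of `D`, and `ε := g / (g1 ^ m * g2 * u)` is a unit of
`x` (`Pt.loc_div_mem` twice), `t * g2` is a unit of `x`. `S.jet`: `s0, s1, s2 ∈ sec DA` with
`Ge E 2 (s0 * g1 - 1)`, `Ge E 2 (s1 * g1 - a)`, `Ge E 2 (s2 * g1 - b)` (`RLR x a b`).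
Put `V := {v | ∃ f ∈ sec S.prm D, v = f * g}` (a complex subspace of `x`: `Pt.germ_mem`). For
`i + j ≤ m`, `v := (s1 g1)^i (s2 g1)^j (s0 g1)^(m - i - j) (t g2) ε` is in `V` (the section is
`s1^i s2^j s0^(m-i-j) t / u`), and with `t g2 ε ≡ c ≠ 0` modulo `Ge E 1` (`IsOrd.exists_jet`, `m = 1`)
one has `Ge E (i + j + 1) (v - c a^i b^j)`. (Products of congruences: if `Ge E (k+1) (v - p)`,
`Ge E k p`, `Ge E (l+1) (w - q)`, `Ge E l q` then `Ge E (k+l+1) (v w - p q)`.)
Claim: for all `k ≤ m` (downward induction on `k`) and `z ∈ x` with `Ge E k z` there is `v ∈ V` with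
`Ge E m (v - z)`. `k = m`: `v = 0`. `k < m`: `IsOrd.exists_jet` with `m := k + 1`: `Ge E (k+1) (z - P(a,b))`,
`deg P ≤ k`; since `Ge E k z`, `ordP P ≥ k` (`IsOrd.ord_ev`) or `P = 0`, so all monomials of `P` have degree
exactly `k` (`ordP` is the order of the power series: coefficients of degree `< ordP P` vanish,
`MvPowerSeries.coeff_of_lt_order`). `P(a,b) = ∑_{d ∈ supp P} coeff_d a^{d 0} b^{d 1}`; take
`v1 := ∑ (coeff_d / c) v_d ∈ V`, `Ge E (k+1) (v1 - P(a,b))`, apply the claim to `z - v1`.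
Finally `k = 0`. -/

set_option autoImplicit false

open Pool.Agent.LibGMM Pool.Agent.LibK Pool.Agent.LibKB

namespace Pool.Agent.LibLB

variable {L : Type} [Field L] [Algebra ℂ L]

/-- `v ≡ p` modulo order `≥ k + 1`, where `p` has order `≥ k`. -/
def R20Cg (E : DVal L) (k : ℤ) (v p : L) : Prop := Ge E (k + 1) (v - p) ∧ Ge E k p

theorem R20Cg.mul {E : DVal L} {k l : ℤ} {v p w q : L} (h : R20Cg E k v p) (h' : R20Cg E l w q) :
    R20Cg E (k + l) (v * w) (p * q) := by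
  refine ⟨?_, h.2.mul h'.2⟩
  have h1 : Ge E l w := by
    have h2 := (h'.1.mono (by omega : l ≤ l + 1)).add h'.2
    rwa [sub_add_cancel] at h2
  have h3 : v * w - p * q = (v - p) * w + p * (w - q) := by ring
  rw [h3]
  refine Ge.add ((h.1.mul h1).mono (by omega)) ((h.2.mul h'.1).mono (by omega))

theorem R20Cg.one (E : DVal L) : R20Cg E 0 1 1 := by
  refine ⟨?_, ?_⟩
  · rw [sub_self]
    intro h
    exact absurd rfl h
  · intro _
    rw [ord_one]

theorem R20Cg.pow {E : DVal L} {k : ℤ} {v p : L} (h : R20Cg E k v p) (n : ℕ) :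
    R20Cg E (n * k) (v ^ n) (p ^ n) := by
  induction n with
  | zero =>
    rw [pow_zero, pow_zero]
    have := R20Cg.one E
    simpa using this
  | succ n ih =>
    rw [pow_succ, pow_succ]
    have := ih.mul h
    have h1 : ((n + 1 : ℕ) : ℤ) * k = n * k + k := by
      push_cast
      ring
    rw [h1]
    exact this

theorem R20_sec_pow {P : Set (DVal L)} {D : DVal L → ℤ} {s : L} (hs : s ∈ sec P D) (n : ℕ) :
    s ^ n ∈ sec P (fun ν => n * D ν) := by
  induction n with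
  | zero =>
    intro ν _ _
    rw [pow_zero, ord_one]
    simp
  | succ n ih =>
    rw [pow_succ]
    have := sec_mul ih hs
    rw [sec_congr (D' := fun ν => (n : ℤ) * D ν + D ν)]
    · exact this
    · intro ν _
      push_cast
      ring

theorem R20_degree {E : DVal L} {x : Subalgebra ℂ L} {a b : L} (hE : IsOrd x E)
    (hab : RLR x a b) {P : MvPolynomial (Fin 2) ℂ} {k : ℕ}
    (hP : ∀ d ∈ P.support, d.degree < k + 1) (hk : Ge E k (ev a b P)) :
    ∀ d ∈ P.support, d.degree = k := by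
  intro d hd
  have h0 : P ≠ 0 := by
    rintro rfl
    simp at hd
  have h1 : ev a b P ≠ 0 := (hE.ord_ev hab h0).1
  have h2 := hk h1
  rw [(hE.ord_ev hab h0).2] at h2
  have h3 : ordP P ≤ d.degree := by
    unfold ordP
    apply ENat.toNat_le_of_le_natCast
    by_contra h4
    push Not at h4
    have h5 := MvPowerSeries.coeff_of_lt_order h4
    rw [MvPolynomial.coeff_coe] at h5
    exact (MvPolynomial.mem_support_iff.1 hd) h5
  have h4 := hP d hd
  have h5 : k ≤ ordP P := by exact_mod_cast h2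
  omega

theorem R20_ev (a b : L) (P : MvPolynomial (Fin 2) ℂ) :
    ev a b P = ∑ d ∈ P.support, MvPolynomial.coeff d P • (a ^ d 0 * b ^ d 1) := by
  unfold ev
  rw [MvPolynomial.aeval_def, MvPolynomial.eval₂_eq']
  refine Finset.sum_congr rfl fun d _ => ?_
  rw [Fin.prod_univ_two, Algebra.smul_def]
  rfl

theorem R20_const {E : DVal L} {x : Subalgebra ℂ L} {a b : L} (hE : IsOrd x E)
    (hab : RLR x a b) {τ : L} (hτ : τ ∈ x) (h0 : τ ≠ 0) (h1 : E.ord τ = 0) :
    ∃ c : ℂ, c ≠ 0 ∧ R20Cg E 0 τ (algebraMap ℂ L c) := by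
  obtain ⟨P, hP, hP'⟩ := hE.exists_jet hab 1 hτ
  have h2 : P = MvPolynomial.C (MvPolynomial.coeff 0 P) := by
    ext d
    rw [MvPolynomial.coeff_C]
    split_ifs with h
    · rw [h]
    · by_contra h3
      have h4 := hP d (MvPolynomial.mem_support_iff.2 h3)
      have h5 : d.degree = 0 := by omega
      exact h ((Finsupp.degree_eq_zero_iff d).1 h5).symm
  have h3 : ev a b P = algebraMap ℂ L (MvPolynomial.coeff 0 P) := by
    conv_lhs => rw [h2]
    exact MvPolynomial.aeval_C _ _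
  rw [h3] at hP'
  have hP2 : Ge E 1 (τ - algebraMap ℂ L (MvPolynomial.coeff 0 P)) := by exact_mod_cast hP'
  refine ⟨MvPolynomial.coeff 0 P, ?_, ?_, ?_⟩
  · intro h4
    rw [h4, map_zero, sub_zero] at hP2
    have := hP2 h0
    omega
  · simpa using hP2
  · intro _
    rw [E.ord_const]

namespace PSurf

variable {S : PSurf L} {x : Subalgebra ℂ L} {E : DVal L} {D DA DT : DVal L → ℤ}
  {u g t : L}

/-- The claim of the header. -/
theorem R20_claim (hx : Pt S.prm x) (hE : IsOrd x E) (hg : LocEqn S.prm x D g) {a b : L}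
    (hab : RLR x a b) (m : ℕ)
    (hs : ∀ i j : ℕ, i + j ≤ m → ∃ f ∈ sec S.prm D,
      Ge E ((i + j : ℕ) + 1) (f * g - a ^ i * b ^ j)) :
    ∀ n k : ℕ, k + n = m → ∀ z ∈ x, Ge E k z → ∃ f ∈ sec S.prm D, Ge E m (f * g - z) := by
  intro n
  induction n with
  | zero =>
    intro k hk z _ hz
    refine ⟨0, Submodule.zero_mem _, ?_⟩
    rw [zero_mul, zero_sub, ← hk, add_zero]
    exact hz.neg
  | succ n ih =>
    intro k hk z hzx hz
    obtain ⟨P, hP, hP'⟩ := hE.exists_jet hab (k + 1) hzx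
    have hP1 : Ge E ((k : ℤ) + 1) (z - ev a b P) := by
      push_cast at hP'
      exact hP'
    have hP2 : Ge E k (ev a b P) := by
      have h1 := hz.sub (hP1.mono (by omega : (k : ℤ) ≤ k + 1))
      rwa [sub_sub_cancel] at h1
    have hd := R20_degree hE hab hP hP2
    have hex : ∀ d ∈ P.support, ∃ f ∈ sec S.prm D, Ge E ((k : ℤ) + 1) (f * g - a ^ d 0 * b ^ d 1) := by
      intro d hd'
      have h1 := hd d hd'
      rw [Finsupp.degree_eq_sum, Fin.sum_univ_two] at h1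
      obtain ⟨f, hf, hf'⟩ := hs (d 0) (d 1) (by omega)
      rw [h1] at hf'
      exact ⟨f, hf, hf'⟩
    choose! F hF hF' using hex
    have h1 : (∑ d ∈ P.support, MvPolynomial.coeff d P • F d) ∈ sec S.prm D :=
      Submodule.sum_mem _ fun d hd => Submodule.smul_mem _ _ (hF d hd)
    have h2 : Ge E ((k : ℤ) + 1)
        ((∑ d ∈ P.support, MvPolynomial.coeff d P • F d) * g - ev a b P) := by
      rw [R20_ev, Finset.sum_mul, ← Finset.sum_sub_distrib]
      refine (geSub E ((k : ℤ) + 1)).sum_mem fun d hd => ?_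
      rw [smul_mul_assoc, ← smul_sub]
      exact (geSub E ((k : ℤ) + 1)).smul_mem _ (hF' d hd)
    have h3 : z - (∑ d ∈ P.support, MvPolynomial.coeff d P • F d) * g ∈ x :=
      sub_mem hzx (hx.germ_mem hg h1)
    have h4 : Ge E ((k + 1 : ℕ) : ℤ) (z - (∑ d ∈ P.support, MvPolynomial.coeff d P • F d) * g) := by
      have h5 := hP1.sub h2
      rw [sub_sub_sub_cancel_right] at h5
      push_cast
      exact h5
    obtain ⟨f, hf, hf'⟩ := ih (k + 1) (by omega) _ h3 h4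
    refine ⟨f + ∑ d ∈ P.support, MvPolynomial.coeff d P • F d, Submodule.add_mem _ hf h1, ?_⟩
    have h6 : (f + ∑ d ∈ P.support, MvPolynomial.coeff d P • F d) * g - z =
        f * g - (z - (∑ d ∈ P.support, MvPolynomial.coeff d P • F d) * g) := by ring
    rw [h6]
    exact hf'

theorem surj_germs (hx : x ∈ S.pts) (hE : IsOrd x E) (m : ℕ) (hA : IsDiv S.prm DA)
    (hAc : S.cl DA = S.A) (hT : IsDiv S.prm DT) (hu : u ≠ 0)
    (heq : ∀ ν ∈ S.prm, D ν = m * DA ν + DT ν + ν.ord u) (ht : Gen S.prm x DT t)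
    (hg : LocEqn S.prm x D g) (z : L) (hz : z ∈ x) :
    ∃ f ∈ sec S.prm D, Ge E m (f * g - z) := by
  have hp := S.pt hx
  obtain ⟨a, b, hab⟩ := hp.coord
  obtain ⟨g1, hg1⟩ := hp.exists_loc hA
  obtain ⟨g2, hg2⟩ := hp.exists_loc hT
  have hw : LocEqn S.prm x D (g1 ^ (m : ℤ) * g2 * u) :=
    (((hg1.zsmul m).add hg2).add (LocEqn.ord hu)).congr fun ν hν => (heq ν hν).symm
  have hε : g / (g1 ^ (m : ℤ) * g2 * u) ∈ x := hp.loc_div_mem hg hw
  have hε0 : g / (g1 ^ (m : ℤ) * g2 * u) ≠ 0 := div_ne_zero hg.1 hw.1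
  have hε1 : E.ord (g / (g1 ^ (m : ℤ) * g2 * u)) = 0 := by
    rw [ord_div E hg.1 hw.1, hp.loc_unique hE.le_ring hg hw, sub_self]
  have hτ : t * g2 * (g / (g1 ^ (m : ℤ) * g2 * u)) ∈ x :=
    x.mul_mem (hp.germ_mem hg2 ht.1) hε
  have htg : t * g2 ≠ 0 := mul_ne_zero ht.2.1 hg2.1
  have hτ1 : E.ord (t * g2 * (g / (g1 ^ (m : ℤ) * g2 * u))) = 0 := by
    rw [E.ord_mul _ _ htg hε0, hε1, hp.ord_zero_of_gen hg2 ht hE.le_ring, add_zero]
  obtain ⟨c, hc, hcg⟩ := R20_const hE hab hτ (mul_ne_zero htg hε0) hτ1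
  obtain ⟨ha0, ha1, hax⟩ := hE.ord_a hab
  obtain ⟨hb0, hb1, hbx⟩ := hE.ord_b hab
  obtain ⟨s0, hs0, hs0'⟩ := S.jet DA hA hAc x hx E hE g1 hg1 1 x.one_mem
  obtain ⟨s1, hs1, hs1'⟩ := S.jet DA hA hAc x hx E hE g1 hg1 a hax
  obtain ⟨s2, hs2, hs2'⟩ := S.jet DA hA hAc x hx E hE g1 hg1 b hbx
  have c0 : R20Cg E 0 (s0 * g1) 1 := ⟨hs0'.mono (by norm_num), fun _ => by rw [ord_one]⟩
  have c1 : R20Cg E 1 (s1 * g1) a := ⟨hs1', fun _ => by rw [ha1]⟩
  have c2 : R20Cg E 1 (s2 * g1) b := ⟨hs2', fun _ => by rw [hb1]⟩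
  refine R20_claim hp hE hg hab m ?_ m 0 (zero_add m) z hz ?_
  · intro i j hij
    have h1 : s1 ^ i * s2 ^ j * s0 ^ (m - (i + j)) * t / u ∈ sec S.prm D := by
      have h2 := sec_div hu (sec_mul (sec_mul (sec_mul (R20_sec_pow hs1 i) (R20_sec_pow hs2 j))
        (R20_sec_pow hs0 (m - (i + j)))) ht.1)
      rw [sec_congr (D' := D)] at h2
      · exact h2
      · intro ν hν
        rw [heq ν hν]
        have h3 : (m : ℤ) = i + j + (m - (i + j) : ℕ) := by omega
        conv_rhs => rw [h3]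
        ring
    refine ⟨c⁻¹ • (s1 ^ i * s2 ^ j * s0 ^ (m - (i + j)) * t / u), Submodule.smul_mem _ _ h1, ?_⟩
    have h2 := (((c1.pow i).mul (c2.pow j)).mul (c0.pow (m - (i + j)))).mul hcg
    have h3 : (s1 * g1) ^ i * (s2 * g1) ^ j * (s0 * g1) ^ (m - (i + j)) *
        (t * g2 * (g / (g1 ^ (m : ℤ) * g2 * u))) =
        s1 ^ i * s2 ^ j * s0 ^ (m - (i + j)) * t / u * g := by
      have h4 : g1 ^ (m : ℤ) = g1 ^ i * g1 ^ j * g1 ^ (m - (i + j)) := by
        rw [zpow_natCast, ← pow_add, ← pow_add]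
        congr 1
        omega
      rw [h4, mul_pow, mul_pow, mul_pow]
      have h5 := hg1.1
      have h6 := hg2.1
      field_simp
    rw [h3] at h2
    have h7 := (h2.1).smul c⁻¹
    have h8 : c⁻¹ • (s1 ^ i * s2 ^ j * s0 ^ (m - (i + j)) * t / u) * g - a ^ i * b ^ j =
        c⁻¹ • (s1 ^ i * s2 ^ j * s0 ^ (m - (i + j)) * t / u * g -
          a ^ i * b ^ j * 1 ^ (m - (i + j)) * algebraMap ℂ L c) := by
      rw [smul_sub, smul_mul_assoc, one_pow, mul_one]
      congr 1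
      have h9 : algebraMap ℂ L c⁻¹ * algebraMap ℂ L c = 1 := by
        rw [← map_mul, inv_mul_cancel₀ hc, map_one]
      rw [Algebra.smul_def]
      linear_combination (-(a ^ i * b ^ j)) * h9
    rw [h8]
    refine h7.mono ?_
    push_cast
    omega
  · intro _
    have h1 : 0 ≤ E.ord z := hE.le_ring hz
    exact_mod_cast h1

end PSurf

end Pool.Agent.LibLB
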