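import Pool.Agent.LibLB.C05
import Pool.Agent.LibLB.C06
import Pool.Agent.LibLG.Surf

/-!
THEOREM K+, part BLOW: the records `SurfG` and `BlowUpG`.
-/

set_option autoImplicit false

open Pool.Agent.LibGMM Pool.Agent.LibK Pool.Agent.LibKB Pool.Agent.LibL Pool.Agent.LibLG

namespace Pool.Agent.LibLB

variable {L : Type} [Field L] [Algebra ℂ L]

/-- The field of fractions of a regular local ring essentially of finite type. -/
theorem essFin_of_rlr {x : Subalgebra ℂ L} {a b : L} (h : RLR x a b) :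
    Algebra.EssFiniteType ℂ L := by
  obtain ⟨B, hB, -, h1⟩ := h.ess
  have h2 : Algebra.FiniteType ℂ B := (Subalgebra.fg_iff_finiteType B).1 hB
  have h3 : IsFractionRing B L := by
    refine IsFractionRing.of_field B L fun z => ?_
    obtain ⟨u, hu, v, hv, hv0, rfl⟩ := h.frac z
    obtain ⟨p, hp, q, hq, hq0, -, rfl⟩ := h1 u hu
    obtain ⟨p', hp', q', hq', hq0', -, rfl⟩ := h1 v hv
    have hp0' : p' ≠ 0 := fun h => hv0 (by rw [h, zero_div])
    refine ⟨⟨p * q', mul_mem hp hq'⟩, ⟨q * p', mul_mem hq hp'⟩, ?_⟩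
    change p / q / (p' / q') = p * q' / (q * p')
    field_simp
  have h4 : Algebra.EssFiniteType B L :=
    Algebra.EssFiniteType.of_isLocalization L (nonZeroDivisors B)
  exact Algebra.EssFiniteType.comp ℂ B L

namespace PSurf

theorem hh_clF (S : PSurf L) (D : S.prm →₀ ℤ) :
    S.hh (S.clF D) = Module.finrank ℂ (secD S.prm D) := by
  rw [clF_apply, hh_cl (isDiv_ext D), secD_eq]
  rfl

theorem hh_sub (S : PSurf L) (α : S.Λ) {ν : DVal L} (hν : ν ∈ S.prm) :
    S.hh (α - S.cls ν) = h0 S.prm (fun μ => S.rep α μ - prd ν μ) := by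
  have hD : IsDiv S.prm (fun μ => S.rep α μ + - prd ν μ) :=
    (S.isDiv_rep α).add (isDiv_prd ν).neg
  have h1 : S.cl (fun μ => S.rep α μ + - prd ν μ) = α - S.cls ν := by
    change clOf _ _ _ = _
    rw [clOf_add (S.isDiv_rep α) (isDiv_prd ν).neg, clOf_neg (isDiv_prd ν), clOf_prd hν]
    change S.cl _ + - _ = _
    rw [S.cl_rep, sub_eq_add_neg]
  rw [← h1, hh_cl hD]
  exact h0_congr fun μ _ => by ring

/-- The surface in the sense of part A+. -/
noncomputable def toSurfG (S : PSurf L) (hC : ∀ S : PSurf L, CurveFacts S)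
    (hH : ∀ S : PSurf L, HodgeFact S) : SurfG L where
  prm := S.prm
  pts := S.pts
  Λ := S.Λ
  form := S.form
  K := S.K
  cl := S.clF
  h0 := S.hh
  A := S.A
  χ := S.chi0
  essFin := by
    obtain ⟨x, hx⟩ := S.ptsNe
    obtain ⟨a, b, h⟩ := S.coord x hx
    exact essFin_of_rlr h
  pts_nonempty := S.ptsNe
  finDiv := S.finDiv
  cl_surj := by
    intro α
    exact ⟨toF (S.rep α) (S.isDiv_rep α), by rw [clF_toF, cl_rep]⟩
  cl_zero_iff := by
    intro D
    constructor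
    · intro h
      obtain ⟨f, hf, h1⟩ := S.ex_div (ext D) (isDiv_ext D) h
      exact ⟨f, hf, fun ν => by rw [h1 ν.1 ν.2, ext_apply]⟩
    · rintro ⟨f, hf, h1⟩
      rw [clF_apply, ← S.cl_div f hf]
      refine clOf_congr fun ν hν => ?_
      have h2 := ext_apply D ⟨ν, hν⟩
      rw [h1 ⟨ν, hν⟩] at h2
      exact h2
  finSec := by
    intro D
    rw [secD_eq]
    exact S.finSec _ (isDiv_ext D)
  h0_cl := S.hh_clF
  h0_zero := hh_zero (hC S)
  local_iff := fun x hx f => (S.pt hx).mem_iff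
  factorial := by
    intro x hx D
    obtain ⟨g, hg, h1⟩ := (S.pt hx).exists_loc (isDiv_ext D)
    exact ⟨g, hg, fun ν hν => by rw [h1 ν.1 ν.2 hν, ext_apply]⟩
  centre := S.exists_le
  symm := S.symm
  parity := S.parity
  rr := fun D => rr' D
  A_sq := by
    have := S.A_sq
    omega
  hodge := hH S
  A_pos := by
    intro ν
    rw [clF_single]
    exact (hC S ν.1 ν.2).1
  serre := by
    intro F
    obtain ⟨k0, hk0⟩ := S.serre F
    refine ⟨k0, fun k hk => ?_⟩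
    have h1 := hk0 k hk (S.rep (k • S.A + F)) (S.isDiv_rep _) (S.cl_rep _)
    have hr : clOf S.prm S.cls (S.rep (k • S.A + F)) = k • S.A + F := S.cl_rep _
    rw [hr] at h1
    refine ⟨h1.2.1 (S.rep _) (S.isDiv_rep _) (S.cl_rep _), h1.1, ?_⟩
    intro D hD x hx
    obtain ⟨f, hf⟩ := (hk0 k hk (ext D) (isDiv_ext D) hD).2.2 x hx
    exact ⟨f, genAt_iff.2 hf⟩
  A_bpf := by
    intro D hD x hx
    obtain ⟨E, hE⟩ := (S.pt hx).exists_ord
    obtain ⟨g, hg⟩ := (S.pt hx).exists_loc (isDiv_ext D)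
    obtain ⟨f, hf, h1⟩ := S.jet (ext D) (isDiv_ext D) hD x hx E hE g hg 1 x.one_mem
    have h2 := ord_add_of_ge E (f := 1) (g := f * g - 1) one_ne_zero
      (by rw [ord_one]; exact h1.mono (by norm_num))
    rw [add_sub_cancel, ord_one] at h2
    exact ⟨f, genAt_iff.2 (((S.pt hx).gen_iff hE hg hf (left_ne_zero_of_mul h2.1)).2 h2.2)⟩
  C1 := by
    intro ν D h
    rw [clF_single] at h ⊢
    have h1 := (hC S ν.1 ν.2).2.1 (S.rep D) (S.isDiv_rep D) (by rw [S.cl_rep]; exact h)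
    rw [S.hh_sub D ν.2, ← h1]
    rfl
  C1' := by
    intro ν μ h
    rw [clF_single, clF_single]
    exact (hC S μ.1 μ.2).2.2.2.2.2 ν.1 ν.2 fun h1 => h (Subtype.ext h1)
  C2 := by
    intro ν D h
    rw [clF_single] at h ⊢
    have h1 := (hC S ν.1 ν.2).2.2.1 (S.rep D) (S.isDiv_rep D) (by rw [S.cl_rep]; exact h)
    rw [S.cl_rep] at h1
    rw [S.hh_sub D ν.2]
    exact h1
  pa_nonneg := by
    intro ν
    rw [clF_single]
    exact (hC S ν.1 ν.2).2.2.2.1
  C3 := by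
    intro D D' h0 h0' h x hx h1 h2
    refine PSurf.C3 hC hx (isDiv_ext D) (isDiv_ext D') ?_ ?_ ?_ ?_ ?_
    · intro ν hν
      rw [ext_apply D ⟨ν, hν⟩]
      exact h0 _
    · intro ν hν
      rw [ext_apply D' ⟨ν, hν⟩]
      exact h0' _
    · intro ν hν
      rw [ext_apply D ⟨ν, hν⟩, ext_apply D' ⟨ν, hν⟩]
      exact h _
    · obtain ⟨ν, h3, h4⟩ := h1
      exact ⟨ν.1, ν.2, h3, by rw [ext_apply]; exact h4⟩
    · obtain ⟨ν, h3, h4⟩ := h2
      exact ⟨ν.1, ν.2, h3, by rw [ext_apply]; exact h4⟩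
  C4 := by
    intro ν
    obtain ⟨c0, hc0⟩ := (hC S ν.1 ν.2).2.2.2.2.1
    refine ⟨c0, fun D h => ?_⟩
    rw [clF_single] at h ⊢
    have h1 := hc0 (S.rep D) (S.isDiv_rep D) (by rw [S.cl_rep]; exact h)
    rw [S.cl_rep] at h1
    rw [S.hh_sub D ν.2]
    exact h1

/-- The record of the blow-up. -/
noncomputable def blowUp (S : PSurf L) (hC : ∀ S : PSurf L, CurveFacts S)
    (hH : ∀ S : PSurf L, HodgeFact S)
    (x : Subalgebra ℂ L) (hx : x ∈ S.pts) (E : DVal L) (hE : IsOrd x E) :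
    BlowUpG (S.toSurfG hC hH) x ((S.blow x hx E hE).toSurfG hC hH) where
  mem := hx
  E := E
  E_notMem := notMem hx hE
  prm_eq := rfl
  pts_old := fun y hy hne => Or.inl ⟨hy, hne⟩
  φ := AddEquiv.refl (S.Λ × ℤ)
  form_eq := fun _ _ => rfl
  K_eq := rfl
  χ_eq := rfl
  cl_E := by
    intro h
    have h1 := (S.blow x hx E hE).clF_single ⟨E, h⟩
    exact h1.trans bCls_E
  mult := fun ν => (S.mul x E (prd ν.1)).toNat
  mult_pos := by
    intro ν
    have h1 := mul_prd_pos hx hE ν.2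
    have h2 := mul_prd_nonneg hx hE ν.1
    change 0 < (S.mul x E (prd ν.1)).toNat ↔ x ≤ ν.1.ring
    rw [← h1]
    omega
  cl_old := by
    intro ν h
    have h1 := (S.blow x hx E hE).clF_single ⟨ν.1, h⟩
    have h2 : S.clF (Finsupp.single ν 1) = S.cls ν.1 := S.clF_single ν
    have h3 := mul_prd_nonneg hx hE ν.1
    change (S.blow x hx E hE).clF (Finsupp.single ⟨ν.1, h⟩ 1) =
      sn (S.clF (Finsupp.single ν 1)) (-(((S.mul x E (prd ν.1)).toNat : ℕ) : ℤ))
    rw [h1, h2, Int.toNat_of_nonneg h3]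
    exact bCls_old hx hE ν.2
  h0_nonneg := fun D j => hh_blow_nonneg hx hE D j
  h0_neg := by
    intro D
    have h1 := hh_blow_neg hx hE (ext D) (isDiv_ext D)
    refine h1.trans ?_
    constructor
    · rintro ⟨f, hf⟩
      exact ⟨f, genAt_iff.2 hf⟩
    · rintro ⟨f, hf⟩
      exact ⟨f, genAt_iff.1 hf⟩

theorem Reg.toSurfG {S : PSurf L} (hS : S.Reg) (hC : ∀ S : PSurf L, CurveFacts S)
    (hH : ∀ S : PSurf L, HodgeFact S) : (S.toSurfG hC hH).IsReg where
  fin := hS.fg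
  χ_eq := hS.chi0_eq (S.rep S.K) (S.isDiv_rep _) (S.cl_rep _)
  num := hS.num

theorem Pos.toSurfG {S : PSurf L} (hS : S.Pos) (hC : ∀ S : PSurf L, CurveFacts S)
    (hH : ∀ S : PSurf L, HodgeFact S) : (S.toSurfG hC hH).IsPos where
  χ_pos := hS.chi_pos
  inf := hS.inf

theorem nonempty_blowUp (S : PSurf L) (hC : ∀ S : PSurf L, CurveFacts S)
    (hH : ∀ S : PSurf L, HodgeFact S)
    {x : Subalgebra ℂ L} (hx : x ∈ S.pts) {E : DVal L} (hE : IsOrd x E) :
    Nonempty (BlowUpG (S.toSurfG hC hH) x ((S.blow x hx E hE).toSurfG hC hH)) :=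
  ⟨S.blowUp hC hH x hx E hE⟩

end PSurf

end Pool.Agent.LibLB
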